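import Pool.Agent.Lib.MP_b573ec_lc_OS.Dich
import Pool.Agent.Lib.MP_b573ec_lc.Count

/-!
One block: if some planted cliques outside the bad set are accepted, then on at least half of the
colourings either a NOT gate changes or the circuit accepts.
-/

set_option autoImplicit false

namespace Pool.Agent.OneSided

open Finset Pool.Agent.CliqueCircuits Pool.Agent.RandomCircuits

/-- Few functions identify two given points. -/
theorem card_eq_at {U : Type} [Fintype U] [DecidableEq U] {K : ℕ} {u v : U} (huv : u ≠ v) :
    (univ.filter (fun c : U → Fin K => c u = c v)).card * K ≤ Fintype.card (U → Fin K) := by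
  have h : ((univ.filter (fun c : U → Fin K => c u = c v)) ×ˢ (univ : Finset (Fin K))).card ≤
      (univ : Finset (U → Fin K)).card := by
    refine card_le_card_of_injOn (fun z => Function.update z.1 v z.2) (by simp) ?_
    rintro ⟨c, x⟩ hz ⟨c', x'⟩ hz' h
    simp only [coe_product, coe_filter, mem_univ, true_and, coe_univ, Set.mem_prod,
      Set.mem_ofPred_eq, Set.mem_univ, and_true] at hz hz'
    have h : Function.update c v x = Function.update c' v x' := h
    have hx : x = x' := by
      have := congrFun h v
      simpa using this
    have hc : ∀ w, w ≠ v → c w = c' w := by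
      intro w hw
      have := congrFun h w
      rwa [Function.update_of_ne hw, Function.update_of_ne hw] at this
    refine Prod.ext ?_ hx
    funext w
    by_cases hw : w = v
    · subst hw
      change c w = c' w
      rw [← hz, ← hz', hc u huv]
    · exact hc w hw
  rw [card_product, card_univ, card_univ, Fintype.card_fin] at h
  exact h

open Classical in
/-- Few functions are not injective on a small set. -/
theorem card_not_inj {U : Type} [Fintype U] [DecidableEq U] {K : ℕ} (X : Finset U) :
    2 * (univ.filter (fun c : U → Fin K => ¬ Set.InjOn c X)).card * K ≤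
      X.card ^ 2 * Fintype.card (U → Fin K) := by
  induction X using Finset.induction_on with
  | empty => simp
  | insert v X hv ih =>
    have hsub : (univ.filter (fun c : U → Fin K => ¬ Set.InjOn c (insert v X : Finset U))) ⊆
        (univ.filter (fun c : U → Fin K => ¬ Set.InjOn c X)) ∪
          X.biUnion (fun u => univ.filter (fun c : U → Fin K => c u = c v)) := by
      intro c hc
      simp only [mem_filter, mem_univ, true_and, mem_union, mem_biUnion] at hc ⊢
      by_contra hcon
      push Not at hcon
      obtain ⟨h1, h2⟩ := hcon
      apply hc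
      rw [coe_insert, Set.injOn_insert (by simpa using hv)]
      refine ⟨h1, ?_⟩
      rintro ⟨u, hu, huv⟩
      exact h2 u (by simpa using hu) huv
    have hcard := (card_le_card hsub).trans ((card_union_le _ _).trans
      (Nat.add_le_add_left card_biUnion_le _))
    have h2 : (∑ u ∈ X, (univ.filter (fun c : U → Fin K => c u = c v)).card) * K ≤
        X.card * Fintype.card (U → Fin K) := by
      rw [sum_mul]
      calc ∑ u ∈ X, (univ.filter (fun c : U → Fin K => c u = c v)).card * K
          ≤ ∑ _u ∈ X, Fintype.card (U → Fin K) := by
            refine sum_le_sum fun u hu => card_eq_at ?_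
            rintro rfl
            exact hv hu
        _ = X.card * Fintype.card (U → Fin K) := by rw [sum_const, smul_eq_mul]
    rw [card_insert_of_notMem hv]
    calc 2 * (univ.filter (fun c : U → Fin K => ¬ Set.InjOn c (insert v X : Finset U))).card * K
        ≤ 2 * ((univ.filter (fun c : U → Fin K => ¬ Set.InjOn c X)).card +
            ∑ u ∈ X, (univ.filter (fun c : U → Fin K => c u = c v)).card) * K :=
          Nat.mul_le_mul_right _ (Nat.mul_le_mul_left _ hcard)
      _ = 2 * (univ.filter (fun c : U → Fin K => ¬ Set.InjOn c X)).card * K +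
            2 * ((∑ u ∈ X, (univ.filter (fun c : U → Fin K => c u = c v)).card) * K) := by ring
      _ ≤ X.card ^ 2 * Fintype.card (U → Fin K) + 2 * (X.card * Fintype.card (U → Fin K)) :=
          Nat.add_le_add ih (Nat.mul_le_mul_left _ h2)
      _ ≤ (X.card + 1) ^ 2 * Fintype.card (U → Fin K) := by
          have : (X.card + 1) ^ 2 * Fintype.card (U → Fin K) =
            X.card ^ 2 * Fintype.card (U → Fin K) + 2 * (X.card * Fintype.card (U → Fin K)) +
              Fintype.card (U → Fin K) := by ring
          omega

variable {V : Type} {s : ℕ}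

open Classical in
/-- The colourings for which some NOT gate changes, compared with the values `b`. -/
noncomputable def Loud {k m : ℕ} (C : Circuit V s) (K : ℕ) (τ : V → InTy (Fin k × Fin m))
    (b : Fin s → Prop) : Finset (Fin k × Fin m → Fin K) :=
  univ.filter (fun c => ¬ ∀ val, C.IsEvalM (fun v => (τ v).neg c) val →
    ∀ i, C.kind i = GateKind.not → (b i ↔ val i))

open Classical in
theorem block_core {k m : ℕ} (C : Circuit V s) (K q l g : ℕ) (hq : 1 ≤ q) (hl : 2 ≤ l)
    (hmpos : 0 < m) (hK : 2 * l ^ 2 ≤ K)
    (h1 : 4 * (s * (l * l) ^ (q + 1)) ≤ K ^ (q + 1))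
    (h2 : 8 * g * (s * q ^ (l + 1)) ≤ m ^ (l + 1))
    (τ : V → InTy (Fin k × Fin m)) (hτ : ∀ v u u', τ v = InTy.pair u u' → u ≠ u')
    (x0 : V → Prop) (b : Fin s → Prop) (hb : C.IsEvalM x0 b)
    (hpos : ∀ p v, x0 v → (τ v).pos p) :
    8 * g * ((univ.filter (fun p : Fin k → Fin m => RandomCircuits.Acc C (fun v => (τ v).pos p))).card *
        K ^ (k * m)) ≤
      m ^ k * K ^ (k * m) + 16 * g * (m ^ k * ((univ.filter
        (fun c : Fin k × Fin m → Fin K => RandomCircuits.Acc C (fun v => (τ v).neg c))).card +
          (Loud C K τ b).card)) := by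
  obtain ⟨BadP, BadN, hPc, hNc, hdich⟩ := approx_dich C b τ hτ K q l hq hl
  have hKpos : 0 < K := by
    have : 0 < l ^ 2 := pow_pos (by omega) _
    omega
  have hPcard : Fintype.card (Fin k → Fin m) = m ^ k := by
    rw [Fintype.card_fun, Fintype.card_fin, Fintype.card_fin]
  have hXcard : Fintype.card (Fin k × Fin m → Fin K) = K ^ (k * m) := by
    rw [Fintype.card_fun, Fintype.card_fin, Fintype.card_prod, Fintype.card_fin, Fintype.card_fin]
  obtain ⟨A, hA⟩ : ∃ A, A = univ.filter (fun p : Fin k → Fin m =>
    RandomCircuits.Acc C (fun v => (τ v).pos p)) := ⟨_, rfl⟩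
  obtain ⟨B, hB⟩ : ∃ B, B = univ.filter (fun c : Fin k × Fin m → Fin K =>
    RandomCircuits.Acc C (fun v => (τ v).neg c)) := ⟨_, rfl⟩
  rw [← hA, ← hB]
  have hBadP : 8 * g * BadP.card ≤ m ^ k := by
    have hpos : 0 < m ^ (l + 1) := pow_pos hmpos _
    refine Nat.le_of_mul_le_mul_right ?_ hpos
    calc 8 * g * BadP.card * m ^ (l + 1) = 8 * g * (BadP.card * m ^ (l + 1)) := by ring
      _ ≤ 8 * g * (s * (q ^ (l + 1) * m ^ k)) := Nat.mul_le_mul_left _ hPc
      _ = 8 * g * (s * q ^ (l + 1)) * m ^ k := by ring
      _ ≤ m ^ (l + 1) * m ^ k := Nat.mul_le_mul_right _ h2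
      _ = m ^ k * m ^ (l + 1) := by ring
  have hBadN : 4 * BadN.card ≤ K ^ (k * m) := by
    have hpos : 0 < K ^ (q + 1) := pow_pos hKpos _
    refine Nat.le_of_mul_le_mul_right ?_ hpos
    calc 4 * BadN.card * K ^ (q + 1) = 4 * (BadN.card * K ^ (q + 1)) := by ring
      _ ≤ 4 * (s * ((l * l) ^ (q + 1) * K ^ (k * m))) := Nat.mul_le_mul_left _ hNc
      _ = 4 * (s * (l * l) ^ (q + 1)) * K ^ (k * m) := by ring
      _ ≤ K ^ (q + 1) * K ^ (k * m) := Nat.mul_le_mul_right _ h1
      _ = K ^ (k * m) * K ^ (q + 1) := by ring
  have hinj : ∀ X : Finset (Fin k × Fin m), X.card ≤ l →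
      4 * (univ.filter (fun c : Fin k × Fin m → Fin K => ¬ Set.InjOn c X)).card ≤
        K ^ (k * m) := by
    intro X hX
    have h3 := card_not_inj (K := K) X
    rw [hXcard] at h3
    have hl2 : 0 < l ^ 2 := pow_pos (by omega) _
    refine Nat.le_of_mul_le_mul_right ?_ hl2
    calc 4 * (univ.filter (fun c : Fin k × Fin m → Fin K => ¬ Set.InjOn c X)).card * l ^ 2
        = 2 * (univ.filter (fun c : Fin k × Fin m → Fin K => ¬ Set.InjOn c X)).card *
            (2 * l ^ 2) := by ring
      _ ≤ 2 * (univ.filter (fun c : Fin k × Fin m → Fin K => ¬ Set.InjOn c X)).card * K :=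
          Nat.mul_le_mul_left _ hK
      _ ≤ X.card ^ 2 * K ^ (k * m) := h3
      _ ≤ l ^ 2 * K ^ (k * m) := Nat.mul_le_mul_right _ (Nat.pow_le_pow_left hX 2)
      _ = K ^ (k * m) * l ^ 2 := by ring
  by_cases hsub : A ⊆ BadP
  · have h3 : 8 * g * A.card ≤ m ^ k :=
      (Nat.mul_le_mul_left _ (card_le_card hsub)).trans hBadP
    calc 8 * g * (A.card * K ^ (k * m)) = 8 * g * A.card * K ^ (k * m) := by ring
      _ ≤ m ^ k * K ^ (k * m) := Nat.mul_le_mul_right _ h3
      _ ≤ _ := Nat.le_add_right _ _
  · -- some accepted planted clique is not bad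
    obtain ⟨p, hpA, hpB⟩ := not_subset.1 hsub
    -- on a set of more than half of the colourings which are quiet something happens
    have key : ∀ w : V ⊕ Fin s, (∀ val, C.IsFrozen b (fun v => (τ v).pos p) val →
        Sum.elim (fun v => (τ v).pos p) val w) →
        K ^ (k * m) ≤ 2 * ((univ.filter (fun c : Fin k × Fin m → Fin K =>
          ∀ val, C.IsFrozen b (fun v => (τ v).neg c) val →
            Sum.elim (fun v => (τ v).neg c) val w)).card) := by
      intro w hw
      rcases hdich w with h | ⟨X, hX, h⟩
      · obtain ⟨val, hval⟩ := C.exists_frozen b (fun v => (τ v).pos p)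
        exact absurd (hw val hval) (h p hpB val hval)
      · have hcover : (univ : Finset (Fin k × Fin m → Fin K)) ⊆
            ((univ.filter (fun c : Fin k × Fin m → Fin K =>
              ∀ val, C.IsFrozen b (fun v => (τ v).neg c) val →
              Sum.elim (fun v => (τ v).neg c) val w)) ∪ BadN) ∪
              univ.filter (fun c : Fin k × Fin m → Fin K => ¬ Set.InjOn c X) := by
          intro c _
          simp only [mem_union, mem_filter, mem_univ, true_and]
          by_cases h3 : c ∈ BadN
          · exact Or.inl (Or.inr h3)
          · by_cases h4 : Set.InjOn c X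
            · exact Or.inl (Or.inl (fun val hval => h c h3 h4 val hval))
            · exact Or.inr h4
        have h3 := (card_le_card hcover).trans ((card_union_le _ _).trans
          (Nat.add_le_add_right (card_union_le _ _) _))
        rw [card_univ, hXcard] at h3
        have h4 := hinj X hX
        omega
    -- quiet colourings: the frozen evaluation is the evaluation
    have hquiet : ∀ c : Fin k × Fin m → Fin K, c ∉ Loud C K τ b → ∀ val,
        C.IsEvalM (fun v => (τ v).neg c) val → C.IsFrozen b (fun v => (τ v).neg c) val ∧
          ∀ i, C.kind i = GateKind.not → (b i ↔ val i) := by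
      intro c hc val hval
      simp only [Loud, mem_filter, mem_univ, true_and, not_not] at hc
      exact ⟨hval.isFrozen (hc val hval), hc val hval⟩
    have hmain : K ^ (k * m) ≤ 2 * (B.card + (Loud C K τ b).card) := by
      by_cases hL : K ^ (k * m) ≤ 2 * (Loud C K τ b).card
      · omega
      · push Not at hL
        -- no NOT gate changes on `p`
        obtain ⟨valP, hvalP⟩ := C.exists_frozen b (fun v => (τ v).pos p)
        have huniqP : ∀ val, C.IsFrozen b (fun v => (τ v).pos p) val → val = valP := by
          intro val hval
          funext i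
          have h3 := hval.mono hvalP (fun v h => h) (Sum.inr i)
          have h4 := hvalP.mono hval (fun v h => h) (Sum.inr i)
          exact propext ⟨h3, h4⟩
        have hbP : ∀ i, C.kind i = GateKind.not →
            (b i ↔ ∀ w ∈ C.wires i, ¬ Sum.elim (fun v => (τ v).pos p) valP w) := by
          intro i hi
          constructor
          · intro hbi w hw hvw
            have h3 := key w (fun val hval => by rw [huniqP val hval]; exact hvw)
            -- some quiet colouring makes `w` true
            have h4 : ∃ c : Fin k × Fin m → Fin K, c ∉ Loud C K τ b ∧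
                ∀ val, C.IsFrozen b (fun v => (τ v).neg c) val →
                  Sum.elim (fun v => (τ v).neg c) val w := by
              by_contra hcon
              push Not at hcon
              have h5 : (univ.filter (fun c : Fin k × Fin m → Fin K =>
                  ∀ val, C.IsFrozen b (fun v => (τ v).neg c) val →
                  Sum.elim (fun v => (τ v).neg c) val w)) ⊆ Loud C K τ b := by
                intro c hc
                by_contra hcL
                obtain ⟨val, hval, hnw⟩ := hcon c hcL
                rw [mem_filter] at hc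
                exact hnw (hc.2 val hval)
              have h6 := card_le_card h5
              omega
            obtain ⟨c, hcL, hcw⟩ := h4
            obtain ⟨vc, hvc⟩ := C.exists_eval (fun v => (τ v).neg c)
            obtain ⟨hfr, hnot⟩ := hquiet c hcL vc hvc
            have h7 := (hnot i hi).1 hbi
            have h8 := (hvc i).1 h7
            simp only [hi] at h8
            exact h8 w hw (hcw vc hfr)
          · intro hall
            have hb' := hb i
            simp only [hi] at hb'
            rw [hb']
            intro w hw hvw
            have hbf : C.IsFrozen b x0 b := hb.isFrozen (fun i _ => Iff.rfl)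
            exact hall w hw (hbf.mono hvalP (fun v hv => hpos p v hv) w hvw)
        have hevP : C.IsEvalM (fun v => (τ v).pos p) valP := hvalP.isEval hbP
        have hout : valP C.out := by
          rw [hA, mem_filter] at hpA
          obtain ⟨val, hval, ho⟩ := hpA.2
          rw [hval.unique hevP] at ho
          exact ho
        have h3 := key (Sum.inr C.out) (fun val hval => by rw [huniqP val hval]; exact hout)
        have h4 : (univ.filter (fun c : Fin k × Fin m → Fin K =>
            ∀ val, C.IsFrozen b (fun v => (τ v).neg c) val →
              Sum.elim (fun v => (τ v).neg c) val (Sum.inr C.out))) ⊆ B ∪ Loud C K τ b := by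
          intro c hc
          rw [mem_filter] at hc
          rw [mem_union]
          by_cases hcL : c ∈ Loud C K τ b
          · exact Or.inr hcL
          · left
            obtain ⟨vc, hvc⟩ := C.exists_eval (fun v => (τ v).neg c)
            obtain ⟨hfr, _⟩ := hquiet c hcL vc hvc
            rw [hB, mem_filter]
            exact ⟨mem_univ _, vc, hvc, hc.2 vc hfr⟩
        have h5 := (card_le_card h4).trans (card_union_le _ _)
        omega
    have hAP : A.card ≤ m ^ k := by
      rw [← hPcard]
      exact card_le_univ A
    calc 8 * g * (A.card * K ^ (k * m))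
        ≤ 8 * g * (m ^ k * (2 * (B.card + (Loud C K τ b).card))) :=
          Nat.mul_le_mul_left _ (Nat.mul_le_mul hAP hmain)
      _ = 16 * g * (m ^ k * (B.card + (Loud C K τ b).card)) := by ring
      _ ≤ _ := Nat.le_add_left _ _

end Pool.Agent.OneSided
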