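import Pool.Agent.Lib.MP_0a1b52_lc.Basic

/-!
Building circuits gate by gate: `Built t s ρ L` says that there is a network of `s` gates over the
variables `E ⊕ Fin t` such that all functions in `L` are computed by its nodes, and all NOT
gates but `ρ` are independent of the variables in `E`.
-/

set_option autoImplicit false

namespace Pool.Agent.OneSided

open Finset Pool.Agent.CliqueCircuits

/-- A Boolean function of the variables `V`. -/
abbrev Fn (V : Type) := (V → Prop) → Prop

/-- A circuit without output. -/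
structure Net (V : Type) (s : ℕ) where
  kind : Fin s → GateKind
  wires : Fin s → Finset (V ⊕ Fin s)
  acyclic : ∀ i j : Fin s, Sum.inr j ∈ wires i → j < i
  unary : ∀ i : Fin s, kind i = GateKind.not → (wires i).card = 1

variable {V : Type} {s : ℕ}

/-- the value of a gate with given wires -/
def gateVal {W : Type} (κ : GateKind) (S : Finset W) (v : W → Prop) : Prop :=
  match κ with
  | GateKind.and => ∀ w ∈ S, v w
  | GateKind.or => ∃ w ∈ S, v w
  | GateKind.not => ∀ w ∈ S, ¬ v w

def Net.Ev (N : Net V s) (x : V → Prop) (val : Fin s → Prop) : Prop :=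
  ∀ i : Fin s, val i ↔ gateVal (N.kind i) (N.wires i) (Sum.elim x val)

/-- a network with a chosen output gate -/
def Net.circ (N : Net V s) (o : Fin s) : Circuit V s where
  kind := N.kind
  wires := N.wires
  acyclic := N.acyclic
  unary := N.unary
  out := o

theorem Net.circ_isEvalM (N : Net V s) (o : Fin s) (x : V → Prop) (val : Fin s → Prop) :
    (N.circ o).IsEvalM x val ↔ N.Ev x val := by
  constructor
  · intro h i
    have := h i
    unfold gateVal
    exact this
  · intro h i
    have := h i
    unfold gateVal at this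
    exact this

/-- the inclusion of nodes -/
def upNode (V : Type) (s : ℕ) : V ⊕ Fin s ↪ V ⊕ Fin (s + 1) :=
  ⟨Sum.map id Fin.castSucc, Sum.map_injective.2 ⟨Function.injective_id,
    Fin.castSucc_injective s⟩⟩

/-- add one gate -/
def Net.add (N : Net V s) (κ : GateKind) (W : Finset (V ⊕ Fin s))
    (hκ : κ = GateKind.not → W.card = 1) : Net V (s + 1) where
  kind := Fin.snoc (α := fun _ => GateKind) N.kind κ
  wires := Fin.snoc (α := fun _ => Finset (V ⊕ Fin (s + 1)))
    (fun i => (N.wires i).map (upNode V s)) (W.map (upNode V s))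
  acyclic := by
    intro i j
    refine Fin.lastCases ?_ (fun i => ?_) i
    · intro h
      rw [Fin.snoc_last, mem_map] at h
      obtain ⟨w, _, hw⟩ := h
      rcases w with v | j'
      · simp [upNode] at hw
      · simp only [upNode, Function.Embedding.coeFn_mk, Sum.map_inr, Sum.inr.injEq] at hw
        rw [← hw]
        exact Fin.castSucc_lt_last j'
    · intro h
      rw [Fin.snoc_castSucc, mem_map] at h
      obtain ⟨w, hwi, hw⟩ := h
      rcases w with v | j'
      · simp [upNode] at hw
      · simp only [upNode, Function.Embedding.coeFn_mk, Sum.map_inr, Sum.inr.injEq] at hw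
        rw [← hw]
        exact Fin.castSucc_lt_castSucc_iff.2 (N.acyclic i j' hwi)
  unary := by
    intro i
    refine Fin.lastCases ?_ (fun i => ?_) i
    · rw [Fin.snoc_last, Fin.snoc_last, card_map]
      exact hκ
    · rw [Fin.snoc_castSucc, Fin.snoc_castSucc, card_map]
      exact N.unary i

theorem gateVal_map {W W' : Type} (κ : GateKind) (S : Finset W) (f : W ↪ W') (v : W' → Prop) :
    gateVal κ (S.map f) v ↔ gateVal κ S (fun w => v (f w)) := by
  cases κ <;> simp [gateVal]

theorem Net.add_ev {N : Net V s} {κ : GateKind} {W : Finset (V ⊕ Fin s)}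
    {hκ : κ = GateKind.not → W.card = 1} {x : V → Prop} {val : Fin (s + 1) → Prop}
    (h : (N.add κ W hκ).Ev x val) :
    N.Ev x (fun i => val i.castSucc) ∧
      (val (Fin.last s) ↔ gateVal κ W (Sum.elim x (fun i => val i.castSucc))) := by
  have hup : ∀ w : V ⊕ Fin s, Sum.elim x val (upNode V s w) =
      Sum.elim x (fun i => val i.castSucc) w := by
    rintro (v | j) <;> rfl
  constructor
  · intro i
    have h1 := h i.castSucc
    simp only [Net.add, Fin.snoc_castSucc] at h1
    change val i.castSucc ↔ _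
    rw [h1, gateVal_map]
    simp only [hup]
  · have h1 := h (Fin.last s)
    simp only [Net.add, Fin.snoc_last] at h1
    rw [h1, gateVal_map]
    simp only [hup]

/-- the node `w` of the network computes `f` -/
def Net.Computes (N : Net V s) (w : V ⊕ Fin s) (f : Fn V) : Prop :=
  ∀ x val, N.Ev x val → (Sum.elim x val w ↔ f x)

theorem Net.Computes.add {N : Net V s} {κ : GateKind} {W : Finset (V ⊕ Fin s)}
    {hκ : κ = GateKind.not → W.card = 1} {w : V ⊕ Fin s} {f : Fn V} (h : N.Computes w f) :
    (N.add κ W hκ).Computes (upNode V s w) f := by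
  intro x val hv
  rw [← h x _ (Net.add_ev hv).1]
  rcases w with v | j <;> exact Iff.rfl

section Built

variable {E : Type} {t : ℕ}

/-- a function which does not depend on the variables in `E` -/
def BitFn (f : Fn (E ⊕ Fin t)) : Prop :=
  ∀ x x' : E ⊕ Fin t → Prop, (∀ j, x (Sum.inr j) ↔ x' (Sum.inr j)) → (f x ↔ f x')

/-- There is a network of `s` gates such that all functions in `L` are computed by its nodes, and
all NOT gates but `ρ` are independent of the variables in `E`. -/
def Built (E : Type) (t s ρ : ℕ) (L : Set (Fn (E ⊕ Fin t))) : Prop :=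
  ∃ (N : Net (E ⊕ Fin t) s) (R : Finset (Fin s)), R.card ≤ ρ ∧
    (∀ i ∉ R, N.kind i = GateKind.not → ∃ f, BitFn f ∧ N.Computes (Sum.inr i) f) ∧
    ∀ f ∈ L, ∃ w, N.Computes w f

theorem Built.base (E : Type) (t : ℕ) :
    Built E t 0 0 (Set.range (fun v : E ⊕ Fin t => (fun x => x v : Fn (E ⊕ Fin t)))) := by
  refine ⟨⟨Fin.elim0, Fin.elim0, fun i => i.elim0, fun i => i.elim0⟩, ∅, by simp,
    fun i => i.elim0, ?_⟩
  rintro f ⟨v, rfl⟩
  exact ⟨Sum.inl v, fun x val _ => Iff.rfl⟩

theorem Built.mono {s ρ : ℕ} {L L' : Set (Fn (E ⊕ Fin t))} (h : Built E t s ρ L)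
    (hL : L' ⊆ L) : Built E t s ρ L' := by
  obtain ⟨N, R, h1, h2, h3⟩ := h
  exact ⟨N, R, h1, h2, fun f hf => h3 f (hL hf)⟩

open Classical in
/-- add a gate -/
theorem Built.gate {s ρ : ℕ} {L : Set (Fn (E ⊕ Fin t))} (h : Built E t s ρ L) {I : Type}
    [Finite I] (κ : GateKind) (hκ : κ ≠ GateKind.not) (F : I → Fn (E ⊕ Fin t))
    (hF : ∀ i, F i ∈ L) :
    Built E t (s + 1) ρ (insert (fun x => match κ with
      | GateKind.and => ∀ i, F i x
      | GateKind.or => ∃ i, F i x
      | GateKind.not => True) L) := by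
  obtain ⟨N, R, h1, h2, h3⟩ := h
  have : Fintype I := Fintype.ofFinite I
  have h4 : ∀ i, ∃ w, N.Computes w (F i) := fun i => h3 _ (hF i)
  choose w hw using h4
  refine ⟨N.add κ (univ.image w) (fun h => absurd h hκ), R.map Fin.castSuccEmb, ?_, ?_, ?_⟩
  · rw [card_map]
    exact h1
  · intro i
    refine Fin.lastCases ?_ (fun i => ?_) i
    · intro _ hk
      simp only [Net.add, Fin.snoc_last] at hk
      exact absurd hk hκ
    · intro hi hk
      simp only [Net.add, Fin.snoc_castSucc] at hk
      have hi' : i ∉ R := by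
        intro h
        apply hi
        rw [mem_map]
        exact ⟨i, h, rfl⟩
      obtain ⟨f, hf, hfc⟩ := h2 i hi' hk
      exact ⟨f, hf, hfc.add⟩
  · intro f hf
    rcases hf with rfl | hf
    · refine ⟨Sum.inr (Fin.last s), ?_⟩
      intro x val hv
      obtain ⟨hv1, hv2⟩ := Net.add_ev hv
      change val (Fin.last s) ↔ _
      rw [hv2]
      cases κ with
      | and =>
        simp only [gateVal, mem_image, mem_univ, true_and, forall_exists_index,
          forall_apply_eq_imp_iff]
        exact forall_congr' fun i => hw i x _ hv1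
      | or =>
        simp only [gateVal, mem_image, mem_univ, true_and, exists_exists_eq_and]
        exact exists_congr fun i => hw i x _ hv1
      | not => exact absurd rfl hκ
    · obtain ⟨w', hw'⟩ := h3 f hf
      exact ⟨_, hw'.add⟩

theorem Built.all {s ρ : ℕ} {L : Set (Fn (E ⊕ Fin t))} (h : Built E t s ρ L) {I : Type}
    [Finite I] (F : I → Fn (E ⊕ Fin t)) (hF : ∀ i, F i ∈ L) :
    Built E t (s + 1) ρ (insert (fun x => ∀ i, F i x) L) :=
  h.gate GateKind.and (by simp) F hF

theorem Built.ex {s ρ : ℕ} {L : Set (Fn (E ⊕ Fin t))} (h : Built E t s ρ L) {I : Type}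
    [Finite I] (F : I → Fn (E ⊕ Fin t)) (hF : ∀ i, F i ∈ L) :
    Built E t (s + 1) ρ (insert (fun x => ∃ i, F i x) L) :=
  h.gate GateKind.or (by simp) F hF

/-- add a NOT gate -/
theorem Built.not {s ρ : ℕ} {L : Set (Fn (E ⊕ Fin t))} (h : Built E t s ρ L)
    (f : Fn (E ⊕ Fin t)) (hf : f ∈ L) :
    Built E t (s + 1) (ρ + 1) (insert (fun x => ¬ f x) L) := by
  classical
  obtain ⟨N, R, h1, h2, h3⟩ := h
  obtain ⟨w, hw⟩ := h3 f hf
  refine ⟨N.add GateKind.not {w} (fun _ => by simp),
    insert (Fin.last s) (R.map Fin.castSuccEmb), ?_, ?_, ?_⟩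
  · refine (card_insert_le _ _).trans ?_
    rw [card_map]
    omega
  · intro i
    refine Fin.lastCases ?_ (fun i => ?_) i
    · intro hi
      exact absurd (mem_insert_self _ _) hi
    · intro hi hk
      simp only [Net.add, Fin.snoc_castSucc] at hk
      have hi' : i ∉ R := by
        intro h
        apply hi
        rw [mem_insert, mem_map]
        exact Or.inr ⟨i, h, rfl⟩
      obtain ⟨f, hf, hfc⟩ := h2 i hi' hk
      exact ⟨f, hf, hfc.add⟩
  · intro f' hf'
    rcases hf' with rfl | hf'
    · refine ⟨Sum.inr (Fin.last s), ?_⟩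
      intro x val hv
      obtain ⟨hv1, hv2⟩ := Net.add_ev hv
      change val (Fin.last s) ↔ _
      rw [hv2]
      simp only [gateVal, mem_singleton, forall_eq]
      exact not_congr (hw x _ hv1)
    · obtain ⟨w', hw'⟩ := h3 f' hf'
      exact ⟨_, hw'.add⟩

/-- add a NOT gate independent of `E` -/
theorem Built.notBit {s ρ : ℕ} {L : Set (Fn (E ⊕ Fin t))} (h : Built E t s ρ L)
    (f : Fn (E ⊕ Fin t)) (hf : f ∈ L) (hb : BitFn f) :
    Built E t (s + 1) ρ (insert (fun x => ¬ f x) L) := by
  classical
  obtain ⟨N, R, h1, h2, h3⟩ := h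
  obtain ⟨w, hw⟩ := h3 f hf
  have hnew : (N.add GateKind.not {w} (fun _ => by simp)).Computes (Sum.inr (Fin.last s))
      (fun x => ¬ f x) := by
    intro x val hv
    obtain ⟨hv1, hv2⟩ := Net.add_ev hv
    change val (Fin.last s) ↔ _
    rw [hv2]
    simp only [gateVal, mem_singleton, forall_eq]
    exact not_congr (hw x _ hv1)
  refine ⟨N.add GateKind.not {w} (fun _ => by simp), R.map Fin.castSuccEmb, ?_, ?_, ?_⟩
  · rw [card_map]
    exact h1
  · intro i
    refine Fin.lastCases ?_ (fun i => ?_) i
    · intro _ _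
      exact ⟨_, fun x x' hx => not_congr (hb x x' hx), hnew⟩
    · intro hi hk
      simp only [Net.add, Fin.snoc_castSucc] at hk
      have hi' : i ∉ R := by
        intro h
        apply hi
        rw [mem_map]
        exact ⟨i, h, rfl⟩
      obtain ⟨f, hf, hfc⟩ := h2 i hi' hk
      exact ⟨f, hf, hfc.add⟩
  · intro f' hf'
    rcases hf' with rfl | hf'
    · exact ⟨_, hnew⟩
    · obtain ⟨w', hw'⟩ := h3 f' hf'
      exact ⟨_, hw'.add⟩

/-- Repeat a construction for all elements of a finite set. -/
theorem Built.fam {I : Type} (S : Finset I) {ρ c : ℕ}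
    (F : I → Set (Fn (E ⊕ Fin t))) (L : Set (Fn (E ⊕ Fin t)))
    (hF : ∀ i ∈ S, ∀ s L', L ⊆ L' → Built E t s ρ L' → Built E t (s + c) ρ (F i ∪ L')) {s : ℕ}
    (h : Built E t s ρ L) : Built E t (s + S.card * c) ρ ((⋃ i ∈ S, F i) ∪ L) := by
  classical
  induction S using Finset.induction_on with
  | empty => simpa using h
  | insert i S hi ih =>
    have h1 := ih (fun j hj => hF j (mem_insert_of_mem hj))
    have h2 := hF i (mem_insert_self _ _) _ _ Set.subset_union_right h1
    rw [card_insert_of_notMem hi]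
    have e1 : s + (S.card + 1) * c = s + S.card * c + c := by ring
    rw [e1]
    refine h2.mono ?_
    intro f hf
    simp only [Set.mem_union, Set.mem_iUnion, mem_insert] at hf ⊢
    rcases hf with ⟨j, hj | hj, hf⟩ | hf
    · subst hj
      exact Or.inl hf
    · exact Or.inr (Or.inl ⟨j, hj, hf⟩)
    · exact Or.inr (Or.inr hf)

end Built

end Pool.Agent.OneSided
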