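import Pool.Agent.Lib.MP_b573ec_lc_OS.Block

/-!
The counting form of the chain argument for one-sided error.
-/

set_option autoImplicit false

namespace Pool.Agent.OneSided

open Finset Pool.Agent.CliqueCircuits Pool.Agent.RandomCircuits

variable {V : Type} {s L k m K : ℕ}

open Classical in
theorem step_count (C : Circuit V s) (F : OrFamily V L k m K)
    (val : (Fin L → Fin k × Fin m → Fin K) → ℕ → Fin s → Prop)
    (hval : ∀ c j, C.IsEvalM (F.asg (stN c j)) (val c j))
    (q l g : ℕ) (hq : 1 ≤ q) (hl : 2 ≤ l)
    (hmpos : 0 < m) (hK : 2 * l ^ 2 ≤ K)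
    (h1 : 4 * (s * (l * l) ^ (q + 1)) ≤ K ^ (q + 1))
    (h2 : 8 * g * (s * q ^ (l + 1)) ≤ m ^ (l + 1)) (j : Fin L) :
    8 * g * ∑ c : Fin L → Fin k × Fin m → Fin K,
        (univ.filter (fun p : Fin k → Fin m =>
          RandomCircuits.Acc C (F.asg (Function.update (stN c j.val) j (OState.tr p))))).card ≤
      m ^ k * Fintype.card (Fin L → Fin k × Fin m → Fin K) + 16 * g * (m ^ k *
        ∑ c : Fin L → Fin k × Fin m → Fin K,
          ((if RandomCircuits.Acc C (F.asg (stN c (j.val + 1))) then 1 else 0) +
            (if ¬ ∀ i, C.kind i = GateKind.not → (val c j.val i ↔ val c (j.val + 1) i) then 1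
              else 0))) := by
  have hXcard : Fintype.card (Fin k × Fin m → Fin K) = K ^ (k * m) := by
    rw [Fintype.card_fun, Fintype.card_fin, Fintype.card_prod, Fintype.card_fin, Fintype.card_fin]
  have hKpos : 0 < K := by
    have : 0 < l ^ 2 := pow_pos (by omega) _
    omega
  have hXpos : 0 < K ^ (k * m) := pow_pos hKpos _
  have hstc : ∀ (c : Fin L → Fin k × Fin m → Fin K) x,
      stN (Function.update c j x) j.val = stN c j.val := by
    intro c x
    refine stN_congr _ _ _ ?_
    intro i hi
    rw [Function.update_of_ne]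
    intro h
    rw [h] at hi
    exact lt_irrefl _ hi
  let f : (Fin L → Fin k × Fin m → Fin K) → ℕ := fun c =>
    (if RandomCircuits.Acc C (F.asg (stN c (j.val + 1))) then 1 else 0) +
            (if ¬ ∀ i, C.kind i = GateKind.not → (val c j.val i ↔ val c (j.val + 1) i) then 1
              else 0)
  have hA : ∀ c : Fin L → Fin k × Fin m → Fin K,
      8 * g * ((univ.filter (fun p : Fin k → Fin m =>
          RandomCircuits.Acc C (F.asg (Function.update (stN c j.val) j (OState.tr p))))).card *
            K ^ (k * m)) ≤
        m ^ k * K ^ (k * m) + 16 * g * (m ^ k * ∑ x, f (Function.update c j x)) := by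
    intro c
    obtain ⟨τ, hτ, hτP, hτN⟩ := F.loc (stN c j) j
    have hxP : ∀ p, (fun v => (τ v).pos p) =
        F.asg (Function.update (stN c j) j (OState.tr p)) := by
      intro p
      funext v
      exact propext (hτP p v)
    have hxN : ∀ x, (fun v => (τ v).neg x) =
        F.asg (stN (Function.update c j x) (j.val + 1)) := by
      intro x
      funext v
      rw [stN_succ, hstc, Function.update_self]
      exact propext (hτN x v)
    have hpos : ∀ p v, F.asg (stN c j) v → (τ v).pos p := by
      intro p v hv
      rw [hτP]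
      refine F.mono _ _ ?_ v hv
      intro i u u' h
      by_cases hi : i = j
      · subst hi
        simp only [stN] at h
        rw [if_neg (lt_irrefl _)] at h
        exact absurd h (by simp [OState.rel])
      · rw [Function.update_of_ne hi]
        exact h
    have h3 := block_core C K q l g hq hl hmpos hK h1 h2 τ hτ (F.asg (stN c j)) (val c j)
      (hval c j) hpos
    simp only [hxP] at h3
    have e1 : ((univ.filter (fun x : Fin k × Fin m → Fin K =>
        RandomCircuits.Acc C (fun v => (τ v).neg x))).card + (Loud C K τ (val c j)).card) =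
        ∑ x, f (Function.update c j x) := by
      simp only [f, sum_add_distrib]
      congr 1
      · rw [card_filter]
        refine sum_congr rfl fun x _ => ?_
        rw [hxN]
      · unfold Loud
        rw [card_filter]
        refine sum_congr rfl fun x _ => ?_
        have e2 : (∀ vl, C.IsEvalM (fun v => (τ v).neg x) vl →
            ∀ i, C.kind i = GateKind.not → (val c j i ↔ vl i)) ↔
            ∀ i, C.kind i = GateKind.not → (val (Function.update c j x) j.val i ↔
              val (Function.update c j x) (j.val + 1) i) := by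
          have e3 : val (Function.update c j x) j.val = val c j := by
            refine (hval _ _).unique ?_
            rw [hstc]
            exact hval c j
          rw [e3, hxN]
          constructor
          · intro h i hi
            exact h _ (hval _ _) i hi
          · intro h vl hvl i hi
            rw [hvl.unique (hval _ _)]
            exact h i hi
        by_cases h4 : (∀ vl, C.IsEvalM (fun v => (τ v).neg x) vl →
            ∀ i, C.kind i = GateKind.not → (val c j i ↔ vl i))
        · rw [if_neg (not_not.2 h4), if_neg (not_not.2 (e2.1 h4))]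
        · rw [if_pos h4, if_pos (fun h5 => h4 (e2.2 h5))]
    rw [e1] at h3
    exact h3
  have hB := sum_update j f
  rw [hXcard] at hB
  refine le_of_mul_le_mul_left (a := K ^ (k * m)) ?_ hXpos
  calc K ^ (k * m) * (8 * g * ∑ c : Fin L → Fin k × Fin m → Fin K,
        (univ.filter (fun p : Fin k → Fin m =>
          RandomCircuits.Acc C (F.asg (Function.update (stN c j.val) j (OState.tr p))))).card)
      = ∑ c : Fin L → Fin k × Fin m → Fin K, 8 * g * ((univ.filter (fun p : Fin k → Fin m =>
          RandomCircuits.Acc C (F.asg (Function.update (stN c j.val) j (OState.tr p))))).card *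
            K ^ (k * m)) := by
        rw [mul_sum, mul_sum]
        refine sum_congr rfl fun c _ => ?_
        ring
    _ ≤ ∑ c : Fin L → Fin k × Fin m → Fin K,
          (m ^ k * K ^ (k * m) + 16 * g * (m ^ k * ∑ x, f (Function.update c j x))) :=
        sum_le_sum fun c _ => hA c
    _ = K ^ (k * m) * (m ^ k * Fintype.card (Fin L → Fin k × Fin m → Fin K) +
          16 * g * (m ^ k * ∑ c, f c)) := by
        rw [sum_add_distrib, sum_const, card_univ, smul_eq_mul, ← mul_sum, ← mul_sum, hB]
        ring

open Classical in
/-- The counting form of the chain argument. -/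
theorem chain_count_os (C : Circuit V s) (F : OrFamily V L k m K)
    (ρ : ℕ) (R : Finset (Fin s)) (hR : R.card ≤ ρ)
    (hconst : ∀ i, C.kind i = GateKind.not → i ∉ R → ∀ st st' val val',
      C.IsEvalM (F.asg st) val → C.IsEvalM (F.asg st') val' → (val i ↔ val' i))
    (q l g : ℕ) (hq : 1 ≤ q) (hl : 2 ≤ l) (hg : 1 ≤ g)
    (hmpos : 0 < m) (hK : 2 * l ^ 2 ≤ K)
    (h1 : 4 * (s * (l * l) ^ (q + 1)) ≤ K ^ (q + 1))
    (h2 : 8 * g * (s * q ^ (l + 1)) ≤ m ^ (l + 1)) :
    8 * g * (univ.filter (fun z : Fin L × (Fin L → Fin k × Fin m → Fin K) × (Fin k → Fin m) =>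
        RandomCircuits.Acc C
          (F.asg (Function.update (stN z.2.1 z.1.val) z.1 (OState.tr z.2.2))))).card <
      (L + 16 * g * 2 ^ ρ) * (Fintype.card (Fin L → Fin k × Fin m → Fin K) * m ^ k) +
      16 * g * (univ.filter (fun z : Fin L × (Fin L → Fin k × Fin m → Fin K) × (Fin k → Fin m) =>
        RandomCircuits.Acc C (F.asg (stN z.2.1 (z.1.val + 1))))).card := by
  let X := Fin L → Fin k × Fin m → Fin K
  let P := Fin k → Fin m
  have hKpos : 0 < K := by
    have : 0 < l ^ 2 := pow_pos (by omega) _
    omega
  have hPcard : Fintype.card (Fin k → Fin m) = m ^ k := by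
    rw [Fintype.card_fun, Fintype.card_fin, Fintype.card_fin]
  have hXpos : 0 < Fintype.card X := by
    rw [Fintype.card_pos_iff]
    exact ⟨fun _ _ => ⟨0, hKpos⟩⟩
  have hPpos : 0 < m ^ k := pow_pos hmpos _
  have hev : ∀ (c : X) (j : ℕ), ∃ v, C.IsEvalM (F.asg (stN c j)) v :=
    fun c j => C.exists_eval _
  choose val hval using hev
  let Ch : X → ℕ → Prop := fun c j =>
    ¬ ∀ i, C.kind i = GateKind.not → (val c j i ↔ val c (j + 1) i)
  have hx : ∀ (c : X) (j : ℕ) v, F.asg (stN c j) v → F.asg (stN c (j + 1)) v := by
    intro c j v hv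
    refine F.mono _ _ ?_ v hv
    intro i u u' h
    simp only [stN] at h ⊢
    by_cases hi : i.val < j
    · rw [if_pos hi] at h
      rw [if_pos (by omega)]
      exact h
    · rw [if_neg hi] at h
      exact absurd h (by simp [OState.rel])
  have hmk : ∀ c : X, ((range L).filter (fun j => Ch c j)).card < 2 ^ ρ := fun c =>
    markov_count R hR (fun j => F.asg (stN c j)) (val c) (hval c) (hx c)
      (fun i hi hiR j => hconst i hi hiR _ _ _ _ (hval c j) (hval c (j + 1)))
  have hcount : ∑ j : Fin L, ∑ c : X, (if Ch c j.val then 1 else 0) <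
      2 ^ ρ * Fintype.card X := by
    rw [sum_comm]
    calc ∑ c : X, ∑ j : Fin L, (if Ch c j.val then 1 else 0)
        < ∑ _c : X, 2 ^ ρ := by
          refine sum_lt_sum_of_nonempty (univ_nonempty_iff.2 (Fintype.card_pos_iff.1 hXpos)) ?_
          intro c _
          rw [← card_filter]
          refine lt_of_le_of_lt ?_ (hmk c)
          refine card_le_card_of_injOn (fun j : Fin L => j.val) ?_ ?_
          · intro j hj
            simp only [coe_filter, mem_univ, true_and, Set.mem_ofPred_eq, mem_range] at hj ⊢
            exact ⟨j.isLt, hj⟩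
          · intro j _ j' _ h
            exact Fin.ext h
      _ = 2 ^ ρ * Fintype.card X := by
          rw [sum_const, card_univ, smul_eq_mul, Nat.mul_comm]
  have e1 : (univ.filter (fun z : Fin L × X × P =>
        RandomCircuits.Acc C
          (F.asg (Function.update (stN z.2.1 z.1.val) z.1 (OState.tr z.2.2))))).card =
      ∑ j : Fin L, ∑ c : X, (univ.filter (fun p : P => RandomCircuits.Acc C
          (F.asg (Function.update (stN c j.val) j (OState.tr p))))).card := by
    simp only [card_filter]
    rw [Fintype.sum_prod_type]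
    refine sum_congr rfl fun j _ => ?_
    rw [Fintype.sum_prod_type]
  have e2 : (univ.filter (fun z : Fin L × X × P =>
        RandomCircuits.Acc C (F.asg (stN z.2.1 (z.1.val + 1))))).card =
      m ^ k * ∑ j : Fin L, ∑ c : X,
        (if RandomCircuits.Acc C (F.asg (stN c (j.val + 1))) then 1 else 0) := by
    simp only [card_filter]
    rw [Fintype.sum_prod_type, mul_sum]
    refine sum_congr rfl fun j _ => ?_
    rw [Fintype.sum_prod_type, mul_sum]
    refine sum_congr rfl fun c _ => ?_
    change (∑ _y : P, if RandomCircuits.Acc C (F.asg (stN c (j.val + 1))) then 1 else 0) = _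
    rw [sum_const, card_univ, smul_eq_mul, hPcard]
  have hstep : ∑ j : Fin L, 8 * g * ∑ c : X, (univ.filter (fun p : P => RandomCircuits.Acc C
          (F.asg (Function.update (stN c j.val) j (OState.tr p))))).card ≤
      ∑ j : Fin L, (m ^ k * Fintype.card X + 16 * g * (m ^ k *
        ∑ c : X, ((if RandomCircuits.Acc C (F.asg (stN c (j.val + 1))) then 1 else 0) +
            (if Ch c j.val then 1 else 0)))) :=
    sum_le_sum fun j _ => step_count C F val hval q l g hq hl hmpos hK h1 h2 j
  rw [e1, e2, mul_sum]
  refine lt_of_le_of_lt hstep ?_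
  have e3 : ∑ j : Fin L, (m ^ k * Fintype.card X + 16 * g * (m ^ k *
        ∑ c : X, ((if RandomCircuits.Acc C (F.asg (stN c (j.val + 1))) then 1 else 0) +
            (if Ch c j.val then 1 else 0)))) =
      L * (Fintype.card X * m ^ k) + 16 * g * (m ^ k * ∑ j : Fin L, ∑ c : X,
        (if RandomCircuits.Acc C (F.asg (stN c (j.val + 1))) then 1 else 0)) +
      16 * g * (m ^ k * ∑ j : Fin L, ∑ c : X, (if Ch c j.val then 1 else 0)) := by
    simp only [sum_add_distrib, mul_add, mul_sum]
    rw [sum_const, card_univ, Fintype.card_fin, smul_eq_mul]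
    ring
  rw [e3]
  have h5 : 16 * g * (m ^ k * ∑ j : Fin L, ∑ c : X, (if Ch c j.val then 1 else 0)) <
      16 * g * (m ^ k * (2 ^ ρ * Fintype.card X)) :=
    Nat.mul_lt_mul_of_pos_left (Nat.mul_lt_mul_of_pos_left hcount hPpos) (by omega)
  have e4 : (L + 16 * g * 2 ^ ρ) * (Fintype.card X * m ^ k) =
      L * (Fintype.card X * m ^ k) + 16 * g * (m ^ k * (2 ^ ρ * Fintype.card X)) := by ring
  rw [e4]
  omega

end Pool.Agent.OneSided
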