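import Pool.Agent.Lib.MP_0a1b52_lc.Approx

/-!
A second form of the approximation theorem: for every node, either it is false on almost all planted
cliques, or there is a small set of vertices such that it is true on almost all colourings that
are injective on this set.
-/

set_option autoImplicit false

namespace Pool.Agent.OneSided

open Finset Pool.Agent.CliqueCircuits

section Main

variable {V : Type} {s k m : ℕ}

open Classical in
/-- The approximation theorem, second form. -/
theorem approx_dich (C : Circuit V s) (b : Fin s → Prop) (τ : V → InTy (Fin k × Fin m))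
    (hne : ∀ v u u', τ v = InTy.pair u u' → u ≠ u') (K q l : ℕ) (hq : 1 ≤ q) (hl : 2 ≤ l) :
    ∃ BadP : Finset (Fin k → Fin m), ∃ BadN : Finset (Fin k × Fin m → Fin K),
      BadP.card * m ^ (l + 1) ≤ s * (q ^ (l + 1) * m ^ k) ∧
      BadN.card * K ^ (q + 1) ≤ s * ((l * l) ^ (q + 1) * K ^ (k * m)) ∧
      ∀ w : V ⊕ Fin s,
        (∀ p ∉ BadP, ∀ val, C.IsFrozen b (fun v => (τ v).pos p) val →
            ¬ Sum.elim (fun v => (τ v).pos p) val w) ∨
        (∃ X : Finset (Fin k × Fin m), X.card ≤ l ∧
          ∀ c ∉ BadN, Set.InjOn c X → ∀ val, C.IsFrozen b (fun v => (τ v).neg c) val →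
          Sum.elim (fun v => (τ v).neg c) val w) := by
  -- the approximators of all gates
  let α := Finset (Finset (Fin k × Fin m)) × Finset (Finset (Fin k × Fin m))
  let node : (Fin s → α) → V ⊕ Fin s → α := fun r w => Sum.elim (fun v => inApprox (τ v)) r w
  let Φ : Fin s → (Fin s → α) → α := fun i r =>
    match C.kind i with
    | GateKind.and =>
      ((C.wires i).biUnion (fun w => (node r w).1),
        univ.filter (fun X => X.card ≤ l ∧ AccC ((C.wires i).biUnion (fun w => (node r w).1)) X))
    | GateKind.or =>
      (univ.filter (fun I => I.card ≤ q ∧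
          ∀ X ∈ (C.wires i).biUnion (fun w => (node r w).2), ∃ v ∈ I, v ∈ X),
        (C.wires i).biUnion (fun w => (node r w).2))
    | GateKind.not => if b i then (∅, {∅}) else ({∅}, ∅)
  have hΦ : ∀ i f g, (∀ j, j < i → f j = g j) → Φ i f = Φ i g := by
    intro i f g hfg
    have h : ∀ w ∈ C.wires i, node f w = node g w := by
      intro w hw
      cases w with
      | inl v => rfl
      | inr j => exact hfg j (C.acyclic i j hw)
    have h1 : (C.wires i).biUnion (fun w => (node f w).1) =
        (C.wires i).biUnion (fun w => (node g w).1) :=
      biUnion_congr rfl (fun w hw => by rw [h w hw])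
    have h2 : (C.wires i).biUnion (fun w => (node f w).2) =
        (C.wires i).biUnion (fun w => (node g w).2) :=
      biUnion_congr rfl (fun w hw => by rw [h w hw])
    simp only [Φ, h1, h2]
  obtain ⟨f, hf⟩ := exists_rec Φ hΦ
  let N : V ⊕ Fin s → α := node f
  -- widths
  have hin1 : ∀ v, (∀ I ∈ (inApprox (τ v)).1, I.card ≤ q) := by
    intro v
    cases τ v with
    | tt => simp [inApprox]
    | ff => simp [inApprox]
    | pair u u' =>
      intro I hI
      simp only [inApprox, mem_insert, mem_singleton] at hI
      rcases hI with rfl | rfl <;> simp [hq]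
  have hin2 : ∀ v, (∀ X ∈ (inApprox (τ v)).2, X.card ≤ l) := by
    intro v
    cases τ v with
    | tt => simp [inApprox]
    | ff => simp [inApprox]
    | pair u u' =>
      intro I hI
      simp only [inApprox, mem_singleton] at hI
      subst hI
      exact (card_le_two).trans hl
  have hw : ∀ M : ℕ, ∀ i : Fin s, i.val = M →
      (∀ I ∈ (f i).1, I.card ≤ q) ∧ (∀ X ∈ (f i).2, X.card ≤ l) := by
    intro M
    induction M using Nat.strong_induction_on with
    | _ M ih =>
      intro i hi
      have hnode : ∀ w ∈ C.wires i, (∀ I ∈ (N w).1, I.card ≤ q) ∧ (∀ X ∈ (N w).2, X.card ≤ l) := by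
        intro w hw
        cases w with
        | inl v => exact ⟨hin1 v, hin2 v⟩
        | inr j =>
          have hj := C.acyclic i j hw
          exact ih j.val (by rw [← hi]; exact hj) j rfl
      rw [hf i]
      cases hk : C.kind i with
      | and =>
        simp only [Φ, hk]
        refine ⟨?_, ?_⟩
        · intro I hI
          rw [mem_biUnion] at hI
          obtain ⟨w, hw, hI⟩ := hI
          exact (hnode w hw).1 I hI
        · intro X hX
          rw [mem_filter] at hX
          exact hX.2.1
      | or =>
        simp only [Φ, hk]
        refine ⟨?_, ?_⟩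
        · intro I hI
          rw [mem_filter] at hI
          exact hI.2.1
        · intro I hI
          rw [mem_biUnion] at hI
          obtain ⟨w, hw, hI⟩ := hI
          exact (hnode w hw).2 I hI
      | not =>
        simp only [Φ, hk]
        by_cases hb : b i
        · simp [hb]
        · simp [hb]
  have hwN : ∀ w, (∀ I ∈ (N w).1, I.card ≤ q) ∧ (∀ X ∈ (N w).2, X.card ≤ l) := by
    intro w
    cases w with
    | inl v => exact ⟨hin1 v, hin2 v⟩
    | inr j => exact hw j.val j rfl
  -- terms satisfy clauses
  have hDA : ∀ w, ∀ X ∈ (N w).2, AccC (N w).1 X := by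
    have hin : ∀ v, ∀ X ∈ (inApprox (τ v)).2, AccC (inApprox (τ v)).1 X := by
      intro v
      cases τ v with
      | tt => simp [inApprox, AccC]
      | ff => simp [inApprox, AccC]
      | pair u u' =>
        intro X hX I hI
        simp only [inApprox, mem_insert, mem_singleton] at hX hI
        subst hX
        rcases hI with rfl | rfl
        · exact ⟨u, by simp, by simp⟩
        · exact ⟨u', by simp, by simp⟩
    have hg : ∀ M : ℕ, ∀ i : Fin s, i.val = M → ∀ X ∈ (f i).2, AccC (f i).1 X := by
      intro M
      induction M using Nat.strong_induction_on with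
      | _ M ih =>
        intro i hi
        have hnode : ∀ w ∈ C.wires i, ∀ X ∈ (N w).2, AccC (N w).1 X := by
          intro w hw
          cases w with
          | inl v => exact hin v
          | inr j =>
            have hj := C.acyclic i j hw
            exact ih j.val (by rw [← hi]; exact hj) j rfl
        rw [hf i]
        cases hk : C.kind i with
        | and =>
          simp only [Φ, hk]
          intro X hX
          rw [mem_filter] at hX
          exact hX.2.2
        | or =>
          simp only [Φ, hk]
          intro X hX I hI
          rw [mem_filter] at hI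
          exact hI.2.2 X hX
        | not =>
          simp only [Φ, hk]
          by_cases hb : b i
          · simp [hb, AccC]
          · simp [hb]
    intro w
    cases w with
    | inl v => exact hin v
    | inr j => exact hg j.val j rfl
  -- exceptional sets
  have hposTree : ∀ i : Fin s, ∃ T : Finset (Finset (Fin k × Fin m)), T.card ≤ q ^ (l + 1) ∧
      (∀ Y ∈ T, Y.card = l + 1) ∧
      ∀ S : Finset (Fin k × Fin m), AccC (N (Sum.inr i)).1 S →
        (∃ X ⊆ S, X.card < l + 1 ∧ AccC (N (Sum.inr i)).1 X) ∨ ∃ Y ∈ T, Y ⊆ S :=
    fun i => tree_pos (N (Sum.inr i)).1 q (hwN (Sum.inr i)).1 (l + 1)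
  choose T hTc hTt hT using hposTree
  have hnegTree : ∀ i : Fin s, ∃ G : Finset (Finset (Fin k × Fin m) × Finset ((Fin k × Fin m) → Fin K)),
      G.card ≤ (l * l) ^ (q + 1) ∧ (∀ g ∈ G, g.1.card = q + 1 ∧ Det g.2 g.1) ∧
      ∀ (c : (Fin k × Fin m) → Fin K) (X : Finset (Fin k × Fin m)), Set.InjOn c X →
        (∀ Z ∈ (N (Sum.inr i)).2, ¬ Set.InjOn c Z) →
        (∃ I : Finset (Fin k × Fin m), I.card < q + 1 ∧ (∀ Z ∈ (N (Sum.inr i)).2, ∃ v ∈ I, v ∈ Z) ∧
          ∀ v ∈ I, v ∉ X) ∨ ∃ g ∈ G, c ∈ g.2 ∧ ∀ v ∈ g.1, v ∉ X :=
    fun i => tree_neg (N (Sum.inr i)).2 l (hwN (Sum.inr i)).2 (q + 1)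
  choose G hGc hGt hG using hnegTree
  let BadP : Finset (Fin k → Fin m) :=
    (univ : Finset (Fin s)).biUnion (fun i => (T i).biUnion
      (fun Y => univ.filter (fun p => Y ⊆ trans p)))
  let BadN : Finset ((Fin k × Fin m) → Fin K) :=
    (univ : Finset (Fin s)).biUnion (fun i => (G i).biUnion (fun g => g.2))
  refine ⟨BadP, BadN, ?_, ?_, ?_⟩
  · have h1 : ∀ i : Fin s, ((T i).biUnion
        (fun Y => univ.filter (fun p : Fin k → Fin m => Y ⊆ trans p))).card * m ^ (l + 1) ≤
        q ^ (l + 1) * m ^ k := by
      intro i
      calc _ ≤ (∑ Y ∈ T i, (univ.filter (fun p : Fin k → Fin m => Y ⊆ trans p)).card)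
            * m ^ (l + 1) := Nat.mul_le_mul_right _ card_biUnion_le
        _ = ∑ Y ∈ T i, (univ.filter (fun p : Fin k → Fin m => Y ⊆ trans p)).card
            * m ^ (l + 1) := by rw [sum_mul]
        _ ≤ ∑ Y ∈ T i, m ^ k := by
            refine sum_le_sum fun Y hY => ?_
            have := trans_card_le Y
            rwa [hTt i Y hY] at this
        _ = (T i).card * m ^ k := by rw [sum_const, smul_eq_mul]
        _ ≤ q ^ (l + 1) * m ^ k := Nat.mul_le_mul_right _ (hTc i)
    calc BadP.card * m ^ (l + 1)
        ≤ (∑ i : Fin s, ((T i).biUnion
          (fun Y => univ.filter (fun p : Fin k → Fin m => Y ⊆ trans p))).card) * m ^ (l + 1) :=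
          Nat.mul_le_mul_right _ card_biUnion_le
      _ = ∑ i : Fin s, ((T i).biUnion
          (fun Y => univ.filter (fun p : Fin k → Fin m => Y ⊆ trans p))).card * m ^ (l + 1) := by
          rw [sum_mul]
      _ ≤ ∑ i : Fin s, q ^ (l + 1) * m ^ k := sum_le_sum fun i _ => h1 i
      _ = s * (q ^ (l + 1) * m ^ k) := by simp
  · have h1 : ∀ i : Fin s, ((G i).biUnion (fun g => g.2)).card * K ^ (q + 1) ≤
        (l * l) ^ (q + 1) * K ^ (k * m) := by
      intro i
      calc _ ≤ (∑ g ∈ G i, g.2.card) * K ^ (q + 1) := Nat.mul_le_mul_right _ card_biUnion_le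
        _ = ∑ g ∈ G i, g.2.card * K ^ (q + 1) := by rw [sum_mul]
        _ ≤ ∑ g ∈ G i, K ^ (k * m) := by
            refine sum_le_sum fun g hg => ?_
            have := (hGt i g hg).2.card_le
            rw [(hGt i g hg).1] at this
            simpa using this
        _ = (G i).card * K ^ (k * m) := by rw [sum_const, smul_eq_mul]
        _ ≤ (l * l) ^ (q + 1) * K ^ (k * m) := Nat.mul_le_mul_right _ (hGc i)
    calc BadN.card * K ^ (q + 1)
        ≤ (∑ i : Fin s, ((G i).biUnion (fun g => g.2)).card) * K ^ (q + 1) :=
          Nat.mul_le_mul_right _ card_biUnion_le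
      _ = ∑ i : Fin s, ((G i).biUnion (fun g => g.2)).card * K ^ (q + 1) := by
          rw [sum_mul]
      _ ≤ ∑ i : Fin s, (l * l) ^ (q + 1) * K ^ (k * m) := sum_le_sum fun i _ => h1 i
      _ = s * ((l * l) ^ (q + 1) * K ^ (k * m)) := by simp
  · -- positive invariant
    have hP : ∀ p ∉ BadP, ∀ val, C.IsFrozen b (fun v => (τ v).pos p) val →
        ∀ w, Sum.elim (fun v => (τ v).pos p) val w → AccD (N w).2 (trans p) := by
      intro p hp val hval
      have hin : ∀ v, (τ v).pos p → AccD (inApprox (τ v)).2 (trans p) := by
        intro v
        cases τ v with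
        | tt => simp [inApprox, AccD]
        | ff => simp [InTy.pos]
        | pair u u' =>
          intro h
          simp only [InTy.pos] at h
          refine ⟨{u, u'}, by simp [inApprox], ?_⟩
          intro v hv
          simp only [mem_insert, mem_singleton] at hv
          rcases hv with rfl | rfl
          · exact (mem_trans p _).2 h.1
          · exact (mem_trans p _).2 h.2
      have hg : ∀ M : ℕ, ∀ i : Fin s, i.val = M → val i → AccD (f i).2 (trans p) := by
        intro M
        induction M using Nat.strong_induction_on with
        | _ M ih =>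
          intro i hi hvi
          have hnode : ∀ w ∈ C.wires i, Sum.elim (fun v => (τ v).pos p) val w →
              AccD (N w).2 (trans p) := by
            intro w hw
            cases w with
            | inl v => exact hin v
            | inr j =>
              have hj := C.acyclic i j hw
              exact ih j.val (by rw [← hi]; exact hj) j rfl
          have hvi' := (hval i).1 hvi
          cases hk : C.kind i with
          | and =>
            simp only [hk] at hvi'
            have hfi : f i = ((C.wires i).biUnion (fun w => (N w).1),
                univ.filter (fun X => X.card ≤ l ∧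
                  AccC ((C.wires i).biUnion (fun w => (N w).1)) X)) := by
              rw [hf i]; simp only [Φ, hk, N]
            have hacc : AccC (f i).1 (trans p) := by
              rw [hfi]
              intro I hI
              simp only [mem_biUnion] at hI
              obtain ⟨w, hw, hI⟩ := hI
              obtain ⟨X, hX, hXp⟩ := hnode w hw (hvi' w hw)
              exact ((hDA w X hX).mono hXp) I hI
            rcases hT i (trans p) hacc with ⟨X, hXS, hXl, hX⟩ | ⟨Y, hY, hYp⟩
            · refine ⟨X, ?_, hXS⟩
              have hX' : AccC (f i).1 X := hX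
              rw [hfi] at hX' ⊢
              simp only [mem_filter, mem_univ, true_and]
              exact ⟨Nat.lt_succ_iff.1 hXl, hX'⟩
            · exfalso
              apply hp
              simp only [BadP, mem_biUnion, mem_univ, true_and, mem_filter]
              exact ⟨i, Y, hY, hYp⟩
          | or =>
            simp only [hk] at hvi'
            obtain ⟨w, hw, hvw⟩ := hvi'
            obtain ⟨X, hX, hXp⟩ := hnode w hw hvw
            have hfi : (f i).2 = (C.wires i).biUnion (fun w => (N w).2) := by
              rw [hf i]; simp only [Φ, hk, N]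
            refine ⟨X, ?_, hXp⟩
            rw [hfi, mem_biUnion]
            exact ⟨w, hw, hX⟩
          | not =>
            simp only [hk] at hvi'
            have hfi : f i = (∅, {∅}) := by
              rw [hf i]; simp only [Φ, hk, hvi', if_true]
            rw [hfi]
            exact ⟨∅, by simp, by simp⟩
      intro w hw
      cases w with
      | inl v => exact hin v hw
      | inr j => exact hg j.val j rfl hw
    -- negative invariant
    have hNeg : ∀ c ∉ BadN, ∀ val, C.IsFrozen b (fun v => (τ v).neg c) val →
        ∀ w, ∀ X : Finset (Fin k × Fin m), Set.InjOn c X → AccC (N w).1 X →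
          Sum.elim (fun v => (τ v).neg c) val w := by
      intro c hc val hval
      have hin : ∀ v, ∀ X : Finset (Fin k × Fin m), Set.InjOn c X → AccC (inApprox (τ v)).1 X → (τ v).neg c := by
        intro v X hX hacc
        cases hτ : τ v with
        | tt => simp [InTy.neg]
        | ff =>
          rw [hτ] at hacc
          simp [inApprox, AccC] at hacc
        | pair u u' =>
          rw [hτ] at hacc
          simp only [inApprox, AccC, mem_insert, mem_singleton, forall_eq_or_imp,
            exists_eq_left, forall_eq] at hacc
          intro hcu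
          exact hne v u u' hτ (hX hacc.1 hacc.2 hcu)
      have hg : ∀ M : ℕ, ∀ i : Fin s, i.val = M →
          ∀ X : Finset (Fin k × Fin m), Set.InjOn c X → AccC (f i).1 X → val i := by
        intro M
        induction M using Nat.strong_induction_on with
        | _ M ih =>
          intro i hi X hX hacc
          have hnode : ∀ w ∈ C.wires i, ∀ X : Finset (Fin k × Fin m), Set.InjOn c X → AccC (N w).1 X →
              Sum.elim (fun v => (τ v).neg c) val w := by
            intro w hw
            cases w with
            | inl v => exact hin v
            | inr j =>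
              have hj := C.acyclic i j hw
              exact ih j.val (by rw [← hi]; exact hj) j rfl
          rw [hval i]
          cases hk : C.kind i with
          | and =>
            simp only
            have hfi : (f i).1 = (C.wires i).biUnion (fun w => (N w).1) := by
              rw [hf i]; simp only [Φ, hk, N]
            rw [hfi] at hacc
            intro w hw
            refine hnode w hw X hX ?_
            intro I hI
            exact hacc I (mem_biUnion.2 ⟨w, hw, hI⟩)
          | or =>
            simp only
            have hfi : f i = (univ.filter (fun I => I.card ≤ q ∧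
                ∀ X ∈ (C.wires i).biUnion (fun w => (N w).2), ∃ v ∈ I, v ∈ X),
                (C.wires i).biUnion (fun w => (N w).2)) := by
              rw [hf i]; simp only [Φ, hk, N]
            -- some term of the union is rainbow
            have hrain : ∃ Z ∈ (f i).2, Set.InjOn c Z := by
              by_contra hcon
              push Not at hcon
              rcases hG i c X hX hcon with ⟨I, hI, hID, hIX⟩ | ⟨g, hg, hcg, _⟩
              · have hI' : I ∈ (f i).1 := by
                  have hID' : ∀ Z ∈ (f i).2, ∃ v ∈ I, v ∈ Z := hID
                  rw [hfi] at hID' ⊢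
                  simp only [mem_filter, mem_univ, true_and]
                  exact ⟨Nat.lt_succ_iff.1 hI, hID'⟩
                obtain ⟨v, hv, hvX⟩ := hacc I hI'
                exact hIX v hv hvX
              · apply hc
                simp only [BadN, mem_biUnion, mem_univ, true_and]
                exact ⟨i, g, hg, hcg⟩
            obtain ⟨Z, hZ, hZc⟩ := hrain
            rw [hfi] at hZ
            simp only [mem_biUnion] at hZ
            obtain ⟨w, hw, hZ⟩ := hZ
            exact ⟨w, hw, hnode w hw Z hZc (hDA w Z hZ)⟩
          | not =>
            simp only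
            by_contra hb
            have hfi : f i = ({∅}, ∅) := by
              rw [hf i]; simp only [Φ, hk, hb, if_false]
            rw [hfi] at hacc
            simp [AccC] at hacc
      intro w X hX hacc
      cases w with
      | inl v => exact hin v X hX hacc
      | inr j => exact hg j.val j rfl X hX hacc
    intro w
    by_cases hA : (N w).2 = ∅
    · left
      intro p hp val hval hvw
      obtain ⟨X, hX, _⟩ := hP p hp val hval w hvw
      rw [hA] at hX
      exact absurd hX (notMem_empty X)
    · right
      obtain ⟨X, hX⟩ := nonempty_iff_ne_empty.2 hA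
      exact ⟨X, (hwN w).2 X hX, fun c hc hinj val hval => hNeg c hc val hval w X hinj (hDA w X hX)⟩

end Main

end Pool.Agent.OneSided
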