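import Pool.Agent.Lib.MP_b573ec_lc_OS.Gates

/-!
The upper bound: a circuit is simulated by a randomized circuit with one-sided error and few NOT
gates depending on the input, which guesses the number of true variables up to a window.
-/

set_option autoImplicit false

namespace Pool.Agent.OneSided

open Finset Pool.Agent.CliqueCircuits

variable {E : Type} {t s ρ : ℕ} {L : Set (Fn (E ⊕ Fin t))}

/-- turn a network into a circuit -/
theorem Built.toCircuit (h : Built E t s ρ L) (f : Fn (E ⊕ Fin t)) (hf : f ∈ L) :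
    ∃ (C : Circuit (E ⊕ Fin t) (s + 1)) (R : Finset (Fin (s + 1))), R.card ≤ ρ ∧
      (∀ i ∉ R, C.kind i = GateKind.not → ∃ g, BitFn g ∧
        ∀ x val, C.IsEvalM x val → (val i ↔ g x)) ∧
      ∀ x val, C.IsEvalM x val → (val C.out ↔ f x) := by
  obtain ⟨N, R, h1, h2, h3⟩ := h
  obtain ⟨w, hw⟩ := h3 f hf
  refine ⟨(N.add GateKind.and {w} (fun h => by cases h)).circ (Fin.last s),
    R.map Fin.castSuccEmb, ?_, ?_, ?_⟩
  · rw [card_map]
    exact h1
  · intro i
    refine Fin.lastCases ?_ (fun i => ?_) i
    · intro _ hk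
      simp only [Net.circ, Net.add, Fin.snoc_last] at hk
      cases hk
    · intro hi hk
      simp only [Net.circ, Net.add, Fin.snoc_castSucc] at hk
      have hi' : i ∉ R := by
        intro h
        apply hi
        rw [mem_map]
        exact ⟨i, h, rfl⟩
      obtain ⟨g, hg, hgc⟩ := h2 i hi' hk
      refine ⟨g, hg, ?_⟩
      intro x val hv
      rw [Net.circ_isEvalM] at hv
      exact hgc.add x val hv
  · intro x val hv
    rw [Net.circ_isEvalM] at hv
    obtain ⟨hv1, hv2⟩ := Net.add_ev hv
    change val (Fin.last s) ↔ _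
    rw [hv2]
    simp only [gateVal, mem_singleton, forall_eq]
    exact hw x _ hv1

/-- add the conjunction of three functions -/
theorem Built.and3 (h : Built E t s ρ L) (f g k : Fn (E ⊕ Fin t)) (hf : f ∈ L) (hg : g ∈ L)
    (hk : k ∈ L) : Built E t (s + 2) ρ (insert (fun x => f x ∧ g x ∧ k x) L) := by
  have h1 := (h.and2 g k hg hk).and2 f _ (Or.inr hf) (Or.inl rfl)
  refine h1.mono ?_
  rintro F (hF | hF)
  · exact Or.inl hF
  · exact Or.inr (Or.inr hF)

/-- The construction. -/
theorem upper_general {E : Type} [Fintype E] [DecidableEq E] {s' : ℕ} (D : Circuit E s')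
    (ρ : ℕ) (hρ : 1 ≤ ρ) (M : ℕ) (hN : Fintype.card E + 1 ≤ M) (hρM : 2 ^ ρ ≤ M) :
    ∃ (t S : ℕ) (C : Circuit (E ⊕ Fin t) S) (R : Finset (Fin S)), S ≤ 2 * s' + 40 * M ^ 3 ∧
      2 ^ t * 2 ^ ρ ≤ 8 * M ∧ R.card ≤ ρ ∧
      (∀ i ∉ R, C.kind i = GateKind.not → ∃ g, BitFn g ∧
        ∀ x val, C.IsEvalM x val → (val i ↔ g x)) ∧
      (∀ (y : E → Prop) (r : Fin t → Bool) val vD,
        C.IsEvalM (Sum.elim y (fun i => r i = true)) val → D.IsEvalM y vD →
        val C.out → vD D.out) ∧
      (∀ (y : E → Prop) vD, D.IsEvalM y vD → vD D.out → ∃ r : Fin t → Bool, ∀ val,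
        C.IsEvalM (Sum.elim y (fun i => r i = true)) val → val C.out) := by
  classical
  obtain ⟨N, hNdef⟩ : ∃ N, N = Fintype.card E := ⟨_, rfl⟩
  obtain ⟨w, hwdef⟩ : ∃ w, w = 2 ^ ρ - 1 := ⟨_, rfl⟩
  obtain ⟨W, hWdef⟩ : ∃ W, W = N / w + 1 := ⟨_, rfl⟩
  obtain ⟨t, htdef⟩ : ∃ t, t = Nat.clog 2 W := ⟨_, rfl⟩
  have h2ρ : 2 ≤ 2 ^ ρ := by
    calc 2 = 2 ^ 1 := by norm_num
      _ ≤ 2 ^ ρ := Nat.pow_le_pow_right (by norm_num) hρ
  have hw1 : 1 ≤ w := by omega
  have hw2 : w + 1 = 2 ^ ρ := by omega
  have hWw : W * w ≤ N + w := by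
    rw [hWdef, add_mul, one_mul]
    exact Nat.add_le_add_right (Nat.div_mul_le_self N w) w
  have hW1 : 1 ≤ W := by
    rw [hWdef]
    exact Nat.le_add_left _ _
  have hWt : W ≤ 2 ^ t := by
    rw [htdef]
    exact Nat.le_pow_clog (by norm_num) W
  have htW : 2 ^ t ≤ 2 * W := by
    rw [htdef]
    rcases Nat.lt_or_ge 1 W with h | h
    · have h1 := Nat.pow_pred_clog_lt_self (b := 2) (by norm_num) h
      have h2 : Nat.clog 2 W ≠ 0 := (Nat.clog_pos (by norm_num) h).ne'
      obtain ⟨c, hc⟩ := Nat.exists_eq_succ_of_ne_zero h2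
      rw [hc] at h1 ⊢
      simp only [Nat.pred_succ, Nat.succ_eq_add_one] at h1
      rw [Nat.succ_eq_add_one, pow_succ]
      omega
    · have h1 : W = 1 := by omega
      rw [h1]
      simp
  -- the codes of the windows
  have hcode : ∃ code : Fin W → (Fin t → Bool), Function.Injective code := by
    have : Nonempty (Fin W ↪ (Fin t → Bool)) := by
      rw [Function.Embedding.nonempty_iff_card_le]
      simpa using hWt
    obtain ⟨e⟩ := this
    exact ⟨e, e.injective⟩
  obtain ⟨code, hcode⟩ := hcode
  -- the sets of variables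
  let So : Option E → Finset E := fun o => match o with
    | none => univ
    | some e => univ.erase e
  have hSo : ∀ o, (So o).card ≤ N := by
    intro o
    rw [hNdef]
    exact card_le_univ _
  -- functions
  let sel : Fin W → Fn (E ⊕ Fin t) := fun a x =>
    ∀ i : Fin t, if code a i then x (Sum.inr i) else ¬ x (Sum.inr i)
  let at' : Option E → ℕ → Fin W → Fn (E ⊕ Fin t) := fun o j a x =>
    sel a x ∧ th t (So o) (a.val * w + j) x
  let thr : Option E → ℕ → Fn (E ⊕ Fin t) := fun o j x => ∃ a : Fin W, at' o j a x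
  -- step 0: inputs
  have b0 := Built.base E t
  -- step 1: thresholds
  have b1 := Built.fam (univ : Finset (Option E)) (c := 2 + 2 * (W * w + 1) * N)
    (fun o => {f | ∃ k ≤ W * w, f = th t (So o) k}) _ (fun o _ s'' L' hL hb => by
      refine (Built.threshold (So o) (W * w) (fun e => hL ⟨Sum.inl e, rfl⟩) hb).le ?_ le_rfl
      have := Nat.mul_le_mul_left (2 * (W * w + 1)) (hSo o)
      omega) b0
  -- step 2: negated random bits
  have b2 := Built.fam (univ : Finset (Fin t)) (c := 1)
    (fun i => {(fun x => ¬ x (Sum.inr i) : Fn (E ⊕ Fin t))}) _ (fun i _ s'' L' hL hb => by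
      have h1 := hb.notBit (fun x => x (Sum.inr i)) (hL (Or.inr ⟨Sum.inr i, rfl⟩))
        (fun x x' hx => hx i)
      refine h1.mono ?_
      rintro f (hf | hf)
      · rw [Set.mem_singleton_iff] at hf
        exact Or.inl hf
      · exact Or.inr hf) b1
  -- step 3: selectors
  have b3 := Built.fam (univ : Finset (Fin W)) (c := 1)
    (fun a => {sel a}) _ (fun a _ s'' L' hL hb => by
      have h1 := hb.all (I := Fin t) (fun i x => if code a i then x (Sum.inr i)
        else ¬ x (Sum.inr i)) (fun i => by
          by_cases hc : code a i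
          · simp only [hc, if_true]
            exact hL (Or.inr (Or.inr ⟨Sum.inr i, rfl⟩))
          · simp only [hc, if_false, Bool.false_eq_true]
            apply hL
            left
            simp only [Set.mem_iUnion, mem_univ, Set.mem_singleton_iff, exists_true_left]
            exact ⟨i, rfl⟩)
      refine h1.mono ?_
      rintro f (hf | hf)
      · rw [Set.mem_singleton_iff] at hf
        exact Or.inl hf
      · exact Or.inr hf) b2
  -- step 4: selector and threshold
  have b4 := Built.fam (univ : Finset (Option E × Fin (w + 1) × Fin W)) (c := 1)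
    (fun z => {at' z.1 z.2.1.val z.2.2}) _ (fun z _ s'' L' hL hb => by
      have hm1 : sel z.2.2 ∈ L' := by
        apply hL
        left
        simp only [Set.mem_iUnion, mem_univ, Set.mem_singleton_iff, exists_true_left]
        exact ⟨z.2.2, rfl⟩
      have hm2 : th t (So z.1) (z.2.2.val * w + z.2.1.val) ∈ L' := by
        apply hL
        right; right; left
        simp only [Set.mem_iUnion, mem_univ, exists_true_left]
        refine ⟨z.1, z.2.2.val * w + z.2.1.val, ?_, rfl⟩
        have h1 := z.2.2.isLt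
        have h2 := z.2.1.isLt
        have h3 : (z.2.2.val + 1) * w ≤ W * w := Nat.mul_le_mul_right _ h1
        have h4 : (z.2.2.val + 1) * w = z.2.2.val * w + w := by ring
        omega
      have h1 := hb.and2 _ _ hm1 hm2
      refine h1.mono ?_
      rintro f (hf | hf)
      · rw [Set.mem_singleton_iff] at hf
        exact Or.inl hf
      · exact Or.inr hf) b3
  -- step 5: thresholds in the selected window
  have b5 := Built.fam (univ : Finset (Option E × Fin (w + 1))) (c := 1)
    (fun z => {thr z.1 z.2.val}) _ (fun z _ s'' L' hL hb => by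
      have h1 := hb.ex (I := Fin W) (fun a => at' z.1 z.2.val a) (fun a => by
        apply hL
        left
        simp only [Set.mem_iUnion, mem_univ, Set.mem_singleton_iff, exists_true_left]
        exact ⟨(z.1, z.2, a), rfl⟩)
      refine h1.mono ?_
      rintro f (hf | hf)
      · rw [Set.mem_singleton_iff] at hf
        exact Or.inl hf
      · exact Or.inr hf) b4
  -- step 6: negations
  obtain ⟨m, b6, hm⟩ := Built.sortedNot ρ _ _ _ (fun j => thr none j) (by
    intro j hj1 hj2
    left
    simp only [Set.mem_iUnion, mem_univ, Set.mem_singleton_iff, exists_true_left]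
    exact ⟨(none, ⟨j, by omega⟩), rfl⟩) b5
  -- step 7
  let ng : E → ℕ → Fn (E ⊕ Fin t) := fun e j x => thr none j x ∧ m (j + 1) x ∧ thr (some e) j x
  let neg : E → Fn (E ⊕ Fin t) := fun e x => ∃ j : Fin w, ng e j.val x
  have b7 := Built.fam (univ : Finset (E × Fin w)) (c := 2)
    (fun z => {ng z.1 z.2.val}) _ (fun z _ s'' L' hL hb => by
      have hj := z.2.isLt
      have hm1 : thr none z.2.val ∈ L' := by
        apply hL
        right; left
        simp only [Set.mem_iUnion, mem_univ, Set.mem_singleton_iff, exists_true_left]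
        exact ⟨(none, ⟨z.2.val, by omega⟩), rfl⟩
      have hm2 : m (z.2.val + 1) ∈ L' := by
        apply hL
        left
        exact ⟨z.2.val + 1, by omega, by omega, rfl⟩
      have hm3 : thr (some z.1) z.2.val ∈ L' := by
        apply hL
        right; left
        simp only [Set.mem_iUnion, mem_univ, Set.mem_singleton_iff, exists_true_left]
        exact ⟨(some z.1, ⟨z.2.val, by omega⟩), rfl⟩
      have h1 := hb.and3 _ _ _ hm1 hm2 hm3
      refine h1.mono ?_
      rintro f (hf | hf)
      · rw [Set.mem_singleton_iff] at hf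
        exact Or.inl hf
      · exact Or.inr hf) b6
  have b8 := Built.fam (univ : Finset E) (c := 1)
    (fun e => {neg e}) _ (fun e _ s'' L' hL hb => by
      have h1 := hb.ex (I := Fin w) (fun j => ng e j.val) (fun j => by
        apply hL
        left
        simp only [Set.mem_iUnion, mem_univ, Set.mem_singleton_iff, exists_true_left]
        exact ⟨(e, j), rfl⟩)
      refine h1.mono ?_
      rintro f (hf | hf)
      · rw [Set.mem_singleton_iff] at hf
        exact Or.inl hf
      · exact Or.inr hf) b7
  -- step 8: dual rail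
  obtain ⟨P, Q, b9, hPQ⟩ := Built.dual D neg (by
    intro e
    right; right; right; right; right; right; right; right
    exact ⟨Sum.inl e, rfl⟩) (by
    intro e
    left
    simp only [Set.mem_iUnion, mem_univ, Set.mem_singleton_iff, exists_true_left]
    exact ⟨e, rfl⟩) b8
  -- step 9: output
  have b10 := b9.and3 (thr none 0) (m w) (P D.out) (by
    right; right; right; right; left
    simp only [Set.mem_iUnion, mem_univ, Set.mem_singleton_iff, exists_true_left]
    exact ⟨(none, ⟨0, by omega⟩), rfl⟩) (by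
    right; right; right; left
    exact ⟨w, hw1, by omega, rfl⟩) (by
    left
    exact ⟨D.out, Or.inl rfl⟩)
  obtain ⟨C, R, hR, hnot, hout⟩ := b10.toCircuit _ (Or.inl rfl)
  -- semantics
  let cnt : (E → Prop) → Finset E → ℕ := fun y S => (S.filter (fun e => y e)).card
  have hsel : ∀ (y : E → Prop) (r : Fin t → Bool) (a : Fin W),
      sel a (Sum.elim y (fun i => r i = true)) ↔ r = code a := by
    intro y r a
    simp only [sel, Sum.elim_inr]
    constructor
    · intro h
      funext i
      have hi := h i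
      by_cases hc : code a i = true
      · rw [if_pos hc] at hi
        rw [hi, hc]
      · rw [if_neg hc] at hi
        rw [Bool.not_eq_true] at hc hi
        rw [hi, hc]
    · rintro rfl i
      by_cases hc : code a i = true
      · rw [if_pos hc]
        exact hc
      · rw [if_neg hc]
        exact hc
  have hth : ∀ (y : E → Prop) (r : Fin t → Bool) (S : Finset E) (k : ℕ),
      th t S k (Sum.elim y (fun i => r i = true)) ↔ k ≤ cnt y S := by
    intro y r S k
    simp only [th, Sum.elim_inl, cnt]
  have hthr : ∀ (y : E → Prop) (r : Fin t → Bool) (o : Option E) (j : ℕ),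
      thr o j (Sum.elim y (fun i => r i = true)) ↔
        ∃ a : Fin W, r = code a ∧ a.val * w + j ≤ cnt y (So o) := by
    intro y r o j
    simp only [thr, at']
    refine exists_congr fun a => ?_
    rw [hsel, hth]
  have hm' : ∀ (y : E → Prop) (r : Fin t → Bool) (j : ℕ), 1 ≤ j → j < 2 ^ ρ →
      (m j (Sum.elim y (fun i => r i = true)) ↔
        ¬ ∃ a : Fin W, r = code a ∧ a.val * w + j ≤ cnt y univ) := by
    intro y r j hj1 hj2
    have hs : ∀ i j, 1 ≤ i → i ≤ j → j < 2 ^ ρ →
        thr none j (Sum.elim y (fun i => r i = true)) →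
        thr none i (Sum.elim y (fun i => r i = true)) := by
      intro i j _ hij _ h
      obtain ⟨a, ha, hle⟩ := (hthr y r none j).1 h
      exact (hthr y r none i).2 ⟨a, ha, by omega⟩
    exact (hm _ hs j hj1 hj2).trans (not_congr (hthr y r none j))
  have core : ∀ (y : E → Prop) (r : Fin t → Bool) (a : Fin W), r = code a →
      a.val * w ≤ cnt y univ → cnt y univ < a.val * w + w →
      ∀ e, neg e (Sum.elim y (fun i => r i = true)) ↔ ¬ y e := by
    intro y r a hr hle hlt e
    have hcode' : ∀ a' : Fin W, r = code a' → a' = a := by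
      intro a' ha'
      rw [hr] at ha'
      exact (hcode ha').symm
    have herase : cnt y (univ.erase e) + (if y e then 1 else 0) = cnt y univ := by
      have h1 : insert e (univ.erase e) = (univ : Finset E) := insert_erase (mem_univ e)
      simp only [cnt]
      rw [← h1, filter_insert]
      by_cases hy : y e
      · rw [if_pos hy, if_pos hy, card_insert_of_notMem (by simp)]
        rw [h1]
      · rw [if_neg hy, if_neg hy, h1]
        rfl
    simp only [neg, ng]
    constructor
    · rintro ⟨j, h1, h2, h3⟩ hy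
      have hj := j.isLt
      rw [hm' y r _ (by omega) (by omega)] at h2
      obtain ⟨a1, ha1, h1⟩ := (hthr y r none j.val).1 h1
      obtain ⟨a3, ha3, h3⟩ := (hthr y r (some e) j.val).1 h3
      rw [hcode' a1 ha1] at h1
      rw [hcode' a3 ha3] at h3
      have h4 : ¬ (a.val * w + (j.val + 1) ≤ cnt y univ) := fun h => h2 ⟨a, hr, h⟩
      have h5 : cnt y (So (some e)) = cnt y (univ.erase e) := rfl
      rw [h5] at h3
      rw [if_pos hy] at herase
      omega
    · intro hy
      refine ⟨⟨cnt y univ - a.val * w, by omega⟩, ?_, ?_, ?_⟩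
      · exact (hthr y r none (cnt y univ - a.val * w)).2 ⟨a, hr, by
          change a.val * w + (cnt y univ - a.val * w) ≤ cnt y univ
          omega⟩
      · rw [hm' y r _ (by omega) (by
          change cnt y univ - a.val * w + 1 < 2 ^ ρ
          omega)]
        rintro ⟨a1, ha1, h1⟩
        rw [hcode' a1 ha1] at h1
        change a.val * w + (cnt y univ - a.val * w + 1) ≤ cnt y univ at h1
        omega
      · refine (hthr y r (some e) (cnt y univ - a.val * w)).2 ⟨a, hr, ?_⟩
        change a.val * w + (cnt y univ - a.val * w) ≤ cnt y (univ.erase e)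
        rw [if_neg hy] at herase
        omega
  refine ⟨t, _, C, R, ?_, ?_, ?_, hnot, ?_, ?_⟩
  · -- size
    simp only [card_univ, Fintype.card_option, Fintype.card_fin, Fintype.card_prod, ← hNdef]
    rw [← hNdef] at hN
    have hWM : W ≤ M := by
      have : N / w ≤ N := Nat.div_le_self _ _
      omega
    have htM : t ≤ M := by
      have h1 : t < 2 ^ t := Nat.lt_two_pow_self
      have h2 : t ≤ W := by
        rw [htdef]
        refine Nat.clog_le_of_le_pow ?_
        exact Nat.lt_two_pow_self.le
      omega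
    have hK : W * w + 1 ≤ 2 * M := by omega
    have hM1 : 1 ≤ M := by omega
    have e1 : (N + 1) * (2 + 2 * (W * w + 1) * N) ≤ 6 * M ^ 3 := by
      have f1 : 2 * (W * w + 1) * N ≤ 4 * M ^ 2 := by
        calc 2 * (W * w + 1) * N ≤ 2 * (2 * M) * M :=
              Nat.mul_le_mul (Nat.mul_le_mul_left _ hK) (by omega)
          _ = 4 * M ^ 2 := by ring
      have f2 : 2 ≤ 2 * M ^ 2 := by nlinarith
      calc (N + 1) * (2 + 2 * (W * w + 1) * N) ≤ M * (2 * M ^ 2 + 4 * M ^ 2) :=
            Nat.mul_le_mul hN (Nat.add_le_add f2 f1)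
        _ = 6 * M ^ 3 := by ring
    have e2 : (N + 1) * ((w + 1) * W) ≤ M ^ 3 := by
      calc (N + 1) * ((w + 1) * W) ≤ M * (M * M) :=
            Nat.mul_le_mul hN (Nat.mul_le_mul (by omega) hWM)
        _ = M ^ 3 := by ring
    have e3 : (N + 1) * (w + 1) ≤ M ^ 3 := by
      calc (N + 1) * (w + 1) ≤ M * M := Nat.mul_le_mul hN (by omega)
        _ = M ^ 2 := by ring
        _ ≤ M ^ 3 := Nat.pow_le_pow_right hM1 (by norm_num)
    have e4 : N * w ≤ M ^ 3 := by
      calc N * w ≤ M * M := Nat.mul_le_mul (by omega) (by omega)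
        _ = M ^ 2 := by ring
        _ ≤ M ^ 3 := Nat.pow_le_pow_right hM1 (by norm_num)
    have e5 : M ≤ M ^ 3 := by
      calc M = M ^ 1 := (pow_one M).symm
        _ ≤ M ^ 3 := Nat.pow_le_pow_right hM1 (by norm_num)
    have e6 : 1 ≤ M ^ 3 := Nat.one_le_pow _ _ hM1
    omega
  · calc 2 ^ t * 2 ^ ρ ≤ (2 * W) * (2 * w) := Nat.mul_le_mul htW (by omega)
      _ = 4 * (W * w) := by ring
      _ ≤ 4 * (N + w) := Nat.mul_le_mul_left _ hWw
      _ ≤ 8 * M := by omega
  · omega
  · -- soundness
    intro y r val vD hval hvD hacc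
    obtain ⟨h1, h2, h3⟩ := (hout _ _ hval).1 hacc
    rw [hm' y r w hw1 (by omega)] at h2
    obtain ⟨a, ha, h1⟩ := (hthr y r none 0).1 h1
    have h4 : ¬ (a.val * w + w ≤ cnt y univ) := fun h => h2 ⟨a, ha, h⟩
    have h5 : cnt y (So none) = cnt y univ := rfl
    rw [h5] at h1
    have hneg := core y r a ha (by omega) (by omega)
    exact ((hPQ _ hneg vD hvD D.out).1).1 h3
  · -- completeness
    intro y vD hvD hacc
    have hcN : cnt y univ ≤ N := by
      rw [hNdef]
      exact card_le_univ _
    have haW : cnt y univ / w < W := by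
      rw [hWdef]
      exact Nat.lt_succ_of_le (Nat.div_le_div_right hcN)
    have hdm : cnt y univ / w * w ≤ cnt y univ := Nat.div_mul_le_self _ _
    have hdm2 : cnt y univ < cnt y univ / w * w + w := Nat.lt_div_mul_add (by omega)
    refine ⟨code ⟨cnt y univ / w, haW⟩, ?_⟩
    intro val hval
    rw [hout _ _ hval]
    refine ⟨?_, ?_, ?_⟩
    · exact (hthr y _ none 0).2 ⟨⟨cnt y univ / w, haW⟩, rfl, hdm⟩
    · rw [hm' y _ w hw1 (by omega)]
      rintro ⟨a', ha', h1⟩
      rw [← hcode ha'] at h1
      change cnt y univ / w * w + w ≤ cnt y univ at h1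
      omega
    · have hneg := core y _ ⟨cnt y univ / w, haW⟩ rfl hdm hdm2
      exact ((hPQ _ hneg vD hvD D.out).1).2 hacc

end Pool.Agent.OneSided
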