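import Pool.Agent.Lib.MP_b573ec_lc_OS.Rand
import Pool.Agent.Lib.MP_b573ec_lc_OS.Upper

/-!
The upper bound for the clique problem.
-/

set_option autoImplicit false

namespace Pool.Agent.OneSided

open Finset Pool.Agent.CliqueCircuits Pool.Agent.RandomCircuits

theorem upper_clique {n s ρ : ℕ} (hn : 1 ≤ n) (hρ : 1 ≤ ρ) (hρn : 2 ^ ρ ≤ n ^ 2)
    (D : Circuit {p : Fin n × Fin n // p.1 < p.2} s) (hD : D.ComputesClique) :
    ∃ (t s' : ℕ) (C : Circuit ({p : Fin n × Fin n // p.1 < p.2} ⊕ Fin t) s'),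
      s' ≤ 2 * s + 40 * n ^ 6 ∧
      (∀ r : Fin t → Bool, numNotGiven C Finset.univ r ≤ ρ) ∧
      (∀ G : SimpleGraph (Fin n), HasBigClique G →
        (2 : ℝ) ^ ρ / (8 * (n : ℝ) ^ 2) ≤ acceptProb C G) ∧
      ∀ G : SimpleGraph (Fin n), ¬ HasBigClique G → acceptProb C G = 0 := by
  classical
  have hN : Fintype.card {p : Fin n × Fin n // p.1 < p.2} + 1 ≤ n ^ 2 := by
    have h1 : Fintype.card {p : Fin n × Fin n // p.1 < p.2} < Fintype.card (Fin n × Fin n) :=
      Fintype.card_subtype_lt (x := (⟨0, hn⟩, ⟨0, hn⟩)) (lt_irrefl _)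
    rw [Fintype.card_prod, Fintype.card_fin] at h1
    have h2 : n ^ 2 = n * n := sq n
    omega
  obtain ⟨t, S, C, R, hS, ht, hR, hnot, hsound, hcomp⟩ :=
    upper_general D ρ hρ (n ^ 2) hN hρn
  refine ⟨t, S, C, ?_, ?_, ?_, ?_⟩
  · refine hS.trans (le_of_eq ?_)
    ring
  · intro r
    unfold numNotGiven
    rw [Nat.card_eq_fintype_card, Fintype.card_subtype]
    refine (card_le_card ?_).trans hR
    intro i hi
    rw [mem_filter] at hi
    obtain ⟨_, hk, x, x', val, val', _, hv, hv', hne⟩ := hi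
    by_contra hiR
    obtain ⟨g, hg, hgc⟩ := hnot i hiR hk
    apply hne
    rw [hgc _ _ ((C.isEval_iff _ _).1 hv), hgc _ _ ((C.isEval_iff _ _).1 hv')]
    exact hg _ _ (fun j => Iff.rfl)
  · intro G hG
    obtain ⟨vD, hvD, hiff⟩ := hD.toM G
    have hout : vD D.out := hiff.2 hG
    obtain ⟨r, hr⟩ := hcomp _ vD hvD hout
    have hacc : Accepts C G r := by
      obtain ⟨val, hval⟩ := C.exists_eval (Sum.elim (fun e => G.Adj e.1.1 e.1.2)
        (fun i => r i = true))
      exact ⟨val, (C.isEval_iff _ _).2 hval, hr val hval⟩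
    unfold acceptProb
    have h1 : (1 : ℝ) ≤ (Nat.card {r : Fin t → Bool // Accepts C G r} : ℝ) := by
      have h2 : 0 < Nat.card {r : Fin t → Bool // Accepts C G r} := by
        have : Nonempty {r : Fin t → Bool // Accepts C G r} := ⟨⟨r, hacc⟩⟩
        exact Nat.card_pos
      exact_mod_cast h2
    have hnR : (0 : ℝ) < n := by exact_mod_cast hn
    rw [div_le_div_iff₀ (by positivity) (by positivity)]
    have h3 : (2 : ℝ) ^ t * 2 ^ ρ ≤ 8 * (n : ℝ) ^ 2 := by exact_mod_cast ht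
    calc (2 : ℝ) ^ ρ * 2 ^ t = 1 * (2 ^ t * 2 ^ ρ) := by ring
      _ ≤ (Nat.card {r : Fin t → Bool // Accepts C G r} : ℝ) * (8 * (n : ℝ) ^ 2) :=
          mul_le_mul h1 h3 (by positivity) (by positivity)
  · intro G hG
    unfold acceptProb
    have h1 : Nat.card {r : Fin t → Bool // Accepts C G r} = 0 := by
      have : IsEmpty {r : Fin t → Bool // Accepts C G r} := by
        refine ⟨?_⟩
        rintro ⟨r, val, hval, hout⟩
        obtain ⟨vD, hvD, hiff⟩ := hD.toM G
        exact hG (hiff.1 (hsound _ r val vD ((C.isEval_iff _ _).1 hval) hvD hout))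
      exact Nat.card_of_isEmpty
    rw [h1]
    simp

end Pool.Agent.OneSided
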