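import Pool.Agent.Lib.MP_b573ec_lc_OS.Build

/-!
Subcircuits: thresholds, dual rail evaluation of a circuit, negations of a sorted sequence.
-/

set_option autoImplicit false

namespace Pool.Agent.OneSided

open Finset Pool.Agent.CliqueCircuits

variable {E : Type} {t s ρ : ℕ} {L : Set (Fn (E ⊕ Fin t))}

theorem Built.pad1 (h : Built E t s ρ L) : Built E t (s + 1) ρ L :=
  (h.all (I := Empty) (fun i => i.elim) (fun i => i.elim)).mono (Set.subset_insert _ _)

theorem Built.le (h : Built E t s ρ L) {s' ρ' : ℕ} (hs : s ≤ s') (hρ : ρ ≤ ρ') :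
    Built E t s' ρ' L := by
  have h1 : Built E t s' ρ L := by
    induction s', hs using Nat.le_induction with
    | base => exact h
    | succ n _ ih => exact ih.pad1
  obtain ⟨N, R, h2, h3, h4⟩ := h1
  exact ⟨N, R, h2.trans hρ, h3, h4⟩

/-- add the conjunction of two functions -/
theorem Built.and2 (h : Built E t s ρ L) (f g : Fn (E ⊕ Fin t)) (hf : f ∈ L) (hg : g ∈ L) :
    Built E t (s + 1) ρ (insert (fun x => f x ∧ g x) L) := by
  have h1 := h.all (I := Bool) (fun b => if b then f else g) (by
    intro b
    cases b
    · simpa using hg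
    · simpa using hf)
  refine h1.mono ?_
  intro F hF
  rcases hF with rfl | hF
  · left
    funext x
    apply propext
    constructor
    · rintro ⟨h1, h2⟩ b
      cases b
      · simpa using h2
      · simpa using h1
    · intro h2
      exact ⟨by simpa using h2 true, by simpa using h2 false⟩
  · exact Or.inr hF

/-- add the disjunction of two functions -/
theorem Built.or2 (h : Built E t s ρ L) (f g : Fn (E ⊕ Fin t)) (hf : f ∈ L) (hg : g ∈ L) :
    Built E t (s + 1) ρ (insert (fun x => f x ∨ g x) L) := by
  have h1 := h.ex (I := Bool) (fun b => if b then f else g) (by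
    intro b
    cases b
    · simpa using hg
    · simpa using hf)
  refine h1.mono ?_
  intro F hF
  rcases hF with rfl | hF
  · left
    funext x
    apply propext
    constructor
    · rintro (h1 | h2)
      · exact ⟨true, by simpa using h1⟩
      · exact ⟨false, by simpa using h2⟩
    · rintro ⟨b, hb⟩
      cases b
      · exact Or.inr (by simpa using hb)
      · exact Or.inl (by simpa using hb)
  · exact Or.inr hF

open Classical in
/-- at least `k` of the variables in `S` are true -/
noncomputable def th (t : ℕ) (S : Finset E) (k : ℕ) : Fn (E ⊕ Fin t) :=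
  fun x => k ≤ (S.filter (fun e => x (Sum.inl e))).card

theorem th_zero (S : Finset E) : th t S 0 = fun _ => True := by
  funext x
  simp [th]

theorem th_empty (k : ℕ) : th t (∅ : Finset E) (k + 1) = fun _ => False := by
  funext x
  simp [th]

open Classical in
theorem th_insert {e : E} {S : Finset E} (he : e ∉ S) (k : ℕ) :
    th t (insert e S) (k + 1) = fun x => th t S (k + 1) x ∨ (th t S k x ∧ x (Sum.inl e)) := by
  funext x
  simp only [th, filter_insert]
  apply propext
  by_cases hx : x (Sum.inl e)
  · rw [if_pos hx, card_insert_of_notMem (by simp [he])]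
    constructor
    · intro h
      exact Or.inr ⟨by omega, hx⟩
    · rintro (h | ⟨h, _⟩) <;> omega
  · rw [if_neg hx]
    constructor
    · exact fun h => Or.inl h
    · rintro (h | ⟨_, h⟩)
      · exact h
      · exact absurd h hx

/-- all thresholds `≤ K` of the variables in `S` -/
theorem Built.threshold (S : Finset E) (K : ℕ) (hv : ∀ e, (fun x => x (Sum.inl e)) ∈ L)
    (h : Built E t s ρ L) :
    Built E t (s + (2 + 2 * (K + 1) * S.card)) ρ ({f | ∃ k ≤ K, f = th t S k} ∪ L) := by
  classical
  induction S using Finset.induction_on with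
  | empty =>
    have h1 := (h.all (I := Empty) (fun i => i.elim) (fun i => i.elim)).ex (I := Empty)
      (fun i => i.elim) (fun i => i.elim)
    refine (h1.mono ?_).le (by simp) le_rfl
    rintro f (⟨k, _, rfl⟩ | hf)
    · rcases k with _ | k
      · rw [th_zero]
        right; left
        funext x
        simp
      · rw [th_empty]
        left
        funext x
        simp
    · exact Or.inr (Or.inr hf)
  | insert e S he ih =>
    have h1 := Built.fam (range (K + 1)) (c := 2) (fun k => {th t (insert e S) k})
      ({f | ∃ k ≤ K, f = th t S k} ∪ L) (fun k hk s' L' hL hb => by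
        rcases k with _ | k
        · refine (hb.mono ?_).le (by omega) le_rfl
          rintro f (hf | hf)
          · rw [Set.mem_singleton_iff] at hf
            subst hf
            apply hL
            left
            exact ⟨0, by omega, by rw [th_zero, th_zero]⟩
          · exact hf
        · rw [mem_range] at hk
          have hm1 : th t S k ∈ L' := hL (Or.inl ⟨k, by omega, rfl⟩)
          have hm2 : th t S (k + 1) ∈ L' := hL (Or.inl ⟨k + 1, by omega, rfl⟩)
          have hm3 : (fun x => x (Sum.inl e)) ∈ L' := hL (Or.inr (hv e))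
          have h3 := (hb.and2 _ _ hm1 hm3).or2 (th t S (k + 1)) _ (Or.inr hm2) (Or.inl rfl)
          refine h3.mono ?_
          rintro f (hf | hf)
          · rw [Set.mem_singleton_iff] at hf
            subst hf
            left
            rw [th_insert he]
          · exact Or.inr (Or.inr hf)) ih
    rw [card_insert_of_notMem he]
    refine (h1.mono ?_).le (le_of_eq ?_) le_rfl
    · rintro f (⟨k, hk, rfl⟩ | hf)
      · left
        simp only [Set.mem_iUnion, mem_range]
        exact ⟨k, by omega, rfl⟩
      · exact Or.inr (Or.inr hf)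
    · rw [card_range]
      ring

/-- dual rail evaluation of a circuit -/
theorem Built.dual {s' : ℕ} (D : Circuit E s') (neg : E → Fn (E ⊕ Fin t))
    (hv : ∀ e, (fun x => x (Sum.inl e)) ∈ L) (hn : ∀ e, neg e ∈ L) (h : Built E t s ρ L) :
    ∃ P Q : Fin s' → Fn (E ⊕ Fin t),
      Built E t (s + 2 * s') ρ ({f | ∃ i, f = P i ∨ f = Q i} ∪ L) ∧
      ∀ x, (∀ e, neg e x ↔ ¬ x (Sum.inl e)) → ∀ val, D.IsEvalM (fun e => x (Sum.inl e)) val →
        ∀ i, (P i x ↔ val i) ∧ (Q i x ↔ ¬ val i) := by
  classical
  let α := Fn (E ⊕ Fin t) × Fn (E ⊕ Fin t)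
  let node : (Fin s' → α) → E ⊕ Fin s' → α := fun r w =>
    Sum.elim (fun e => ((fun x => x (Sum.inl e) : Fn (E ⊕ Fin t)), neg e)) r w
  let Φ : Fin s' → (Fin s' → α) → α := fun i r =>
    match D.kind i with
    | GateKind.and => (fun x => ∀ w : {w // w ∈ D.wires i}, (node r w).1 x,
        fun x => ∃ w : {w // w ∈ D.wires i}, (node r w).2 x)
    | GateKind.or => (fun x => ∃ w : {w // w ∈ D.wires i}, (node r w).1 x,
        fun x => ∀ w : {w // w ∈ D.wires i}, (node r w).2 x)
    | GateKind.not => (fun x => ∀ w : {w // w ∈ D.wires i}, (node r w).2 x,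
        fun x => ∃ w : {w // w ∈ D.wires i}, (node r w).1 x)
  have hΦ : ∀ i f g, (∀ j, j < i → f j = g j) → Φ i f = Φ i g := by
    intro i f g hfg
    have h : ∀ w : {w // w ∈ D.wires i}, node f w = node g w := by
      rintro ⟨w, hw⟩
      cases w with
      | inl v => rfl
      | inr j => exact hfg j (D.acyclic i j hw)
    simp only [Φ, h]
  obtain ⟨f, hf⟩ := exists_rec Φ hΦ
  refine ⟨fun i => (f i).1, fun i => (f i).2, ?_, ?_⟩
  · have key : ∀ m ≤ s', Built E t (s + 2 * m) ρ
        ({g | ∃ i : Fin s', i.val < m ∧ (g = (f i).1 ∨ g = (f i).2)} ∪ L) := by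
      intro m
      induction m with
      | zero =>
        intro _
        refine h.mono ?_
        rintro g (⟨i, hi, _⟩ | hg)
        · exact absurd hi (Nat.not_lt_zero _)
        · exact hg
      | succ m ih =>
        intro hm
        have h1 := ih (by omega)
        let i : Fin s' := ⟨m, by omega⟩
        have hw : ∀ w : {w // w ∈ D.wires i}, (node f w).1 ∈
            ({g | ∃ i : Fin s', i.val < m ∧ (g = (f i).1 ∨ g = (f i).2)} ∪ L) ∧
            (node f w).2 ∈ ({g | ∃ i : Fin s', i.val < m ∧ (g = (f i).1 ∨ g = (f i).2)} ∪ L) := by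
          rintro ⟨w, hw⟩
          cases w with
          | inl v => exact ⟨Or.inr (hv v), Or.inr (hn v)⟩
          | inr j =>
            have hj := D.acyclic i j hw
            have hj' : j.val < m := hj
            exact ⟨Or.inl ⟨j, hj', Or.inl rfl⟩, Or.inl ⟨j, hj', Or.inr rfl⟩⟩
        have hfi := hf i
        have h2 : Built E t (s + 2 * m + 1 + 1) ρ (insert (f i).1 (insert (f i).2
            ({g | ∃ i : Fin s', i.val < m ∧ (g = (f i).1 ∨ g = (f i).2)} ∪ L))) := by
          cases hk : D.kind i with
          | and =>
            simp only [Φ, hk] at hfi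
            rw [hfi]
            exact (h1.ex _ (fun w => (hw w).2)).all _ (fun w => Or.inr (hw w).1)
          | or =>
            simp only [Φ, hk] at hfi
            rw [hfi]
            exact (h1.all _ (fun w => (hw w).2)).ex _ (fun w => Or.inr (hw w).1)
          | not =>
            simp only [Φ, hk] at hfi
            rw [hfi]
            exact (h1.ex _ (fun w => (hw w).1)).all _ (fun w => Or.inr (hw w).2)
        have e1 : s + 2 * (m + 1) = s + 2 * m + 1 + 1 := by ring
        rw [e1]
        refine h2.mono ?_
        rintro g (⟨j, hj, hg⟩ | hg)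
        · rcases Nat.lt_succ_iff_lt_or_eq.1 hj with hj | hj
          · exact Or.inr (Or.inr (Or.inl ⟨j, hj, hg⟩))
          · have hji : j = i := Fin.ext hj
            rw [hji] at hg
            rcases hg with hg | hg
            · exact Or.inl hg
            · exact Or.inr (Or.inl hg)
        · exact Or.inr (Or.inr (Or.inr hg))
    refine (key s' le_rfl).mono ?_
    rintro g (⟨i, hg⟩ | hg)
    · exact Or.inl ⟨i, i.isLt, hg⟩
    · exact Or.inr hg
  · intro x hx val hval
    have key : ∀ M : ℕ, ∀ i : Fin s', i.val = M → ((f i).1 x ↔ val i) ∧ ((f i).2 x ↔ ¬ val i) := by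
      intro M
      induction M using Nat.strong_induction_on with
      | _ M ih =>
        intro i hi
        have hw : ∀ w ∈ D.wires i, ((node f w).1 x ↔ Sum.elim (fun e => x (Sum.inl e)) val w) ∧
            ((node f w).2 x ↔ ¬ Sum.elim (fun e => x (Sum.inl e)) val w) := by
          intro w hw
          cases w with
          | inl v => exact ⟨Iff.rfl, hx v⟩
          | inr j =>
            have hj := D.acyclic i j hw
            exact ih j.val (by rw [← hi]; exact hj) j rfl
        have hfi := hf i
        have hvi := hval i
        cases hk : D.kind i with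
        | and =>
          simp only [Φ, hk] at hfi
          simp only [hk] at hvi
          rw [hfi, hvi]
          constructor
          · simp only [Subtype.forall]
            exact forall₂_congr fun w hw' => (hw w hw').1
          · simp only [Subtype.exists]
            push Not
            constructor
            · rintro ⟨w, hw', h2⟩
              exact ⟨w, hw', ((hw w hw').2).1 h2⟩
            · rintro ⟨w, hw', h2⟩
              exact ⟨w, hw', ((hw w hw').2).2 h2⟩
        | or =>
          simp only [Φ, hk] at hfi
          simp only [hk] at hvi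
          rw [hfi, hvi]
          constructor
          · simp only [Subtype.exists]
            constructor
            · rintro ⟨w, hw', h2⟩
              exact ⟨w, hw', ((hw w hw').1).1 h2⟩
            · rintro ⟨w, hw', h2⟩
              exact ⟨w, hw', ((hw w hw').1).2 h2⟩
          · simp only [Subtype.forall]
            push Not
            exact forall₂_congr fun w hw' => (hw w hw').2
        | not =>
          simp only [Φ, hk] at hfi
          simp only [hk] at hvi
          rw [hfi, hvi]
          constructor
          · simp only [Subtype.forall]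
            exact forall₂_congr fun w hw' => (hw w hw').2
          · simp only [Subtype.exists]
            push Not
            constructor
            · rintro ⟨w, hw', h2⟩
              exact ⟨w, hw', ((hw w hw').1).1 h2⟩
            · rintro ⟨w, hw', h2⟩
              exact ⟨w, hw', ((hw w hw').1).2 h2⟩
    exact fun i => key i.val i rfl

/-- The negations of a sorted sequence of `2 ^ h - 1` functions with `h` NOT gates. -/
theorem Built.sortedNot (h : ℕ) : ∀ (s ρ : ℕ) (L : Set (Fn (E ⊕ Fin t)))
    (z : ℕ → Fn (E ⊕ Fin t)), (∀ j, 1 ≤ j → j < 2 ^ h → z j ∈ L) → Built E t s ρ L →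
    ∃ m : ℕ → Fn (E ⊕ Fin t),
      Built E t (s + 4 * 2 ^ h) (ρ + h) ({f | ∃ j, 1 ≤ j ∧ j < 2 ^ h ∧ f = m j} ∪ L) ∧
      ∀ x, (∀ i j, 1 ≤ i → i ≤ j → j < 2 ^ h → z j x → z i x) →
        ∀ j, 1 ≤ j → j < 2 ^ h → (m j x ↔ ¬ z j x) := by
  induction h with
  | zero =>
    intro s ρ L z _ hb
    refine ⟨z, ?_, ?_⟩
    · refine (hb.mono ?_).le (by omega) (by omega)
      rintro f (⟨j, h1, h2, _⟩ | hf)
      · rw [pow_zero] at h2
        omega
      · exact hf
    · intro x _ j h1 h2
      rw [pow_zero] at h2
      omega
  | succ h ih =>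
    intro s ρ L z hz hb
    have hpos : 1 ≤ 2 ^ h := Nat.one_le_two_pow
    have h2h : 2 ^ (h + 1) = 2 ^ h + 2 ^ h := by rw [pow_succ]; ring
    let y : Fn (E ⊕ Fin t) := fun x => ¬ z (2 ^ h) x
    have hb1 : Built E t (s + 1) (ρ + 1) (insert y L) :=
      hb.not (z (2 ^ h)) (hz _ hpos (by omega))
    let u : ℕ → Fn (E ⊕ Fin t) := fun j x => (z j x ∧ y x) ∨ z (2 ^ h + j) x
    have hb2 := Built.fam (Ico 1 (2 ^ h)) (c := 2) (fun j => {u j}) (insert y L)
      (fun j hj s' L' hL hb' => by
        rw [mem_Ico] at hj
        have hm1 : z j ∈ L' := hL (Or.inr (hz j hj.1 (by omega)))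
        have hm2 : z (2 ^ h + j) ∈ L' := hL (Or.inr (hz _ (by omega) (by omega)))
        have hm3 : y ∈ L' := hL (Or.inl rfl)
        have h3 := (hb'.and2 _ _ hm1 hm3).or2 _ (z (2 ^ h + j)) (Or.inl rfl) (Or.inr hm2)
        refine h3.mono ?_
        rintro f (hf | hf)
        · rw [Set.mem_singleton_iff] at hf
          subst hf
          exact Or.inl rfl
        · exact Or.inr (Or.inr hf)) hb1
    obtain ⟨m', hb3, hm'⟩ := ih _ _ _ u (by
      intro j hj1 hj2
      left
      simp only [Set.mem_iUnion, mem_Ico]
      exact ⟨j, ⟨hj1, hj2⟩, rfl⟩) hb2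
    let m : ℕ → Fn (E ⊕ Fin t) := fun j =>
      if j < 2 ^ h then (fun x => y x ∧ m' j x) else
        if j = 2 ^ h then y else (fun x => y x ∨ m' (j - 2 ^ h) x)
    have hb4 := Built.fam (Ico 1 (2 ^ (h + 1))) (c := 1) (fun j => {m j}) _
      (fun j hj s' L' hL hb' => by
        rw [mem_Ico] at hj
        have hy : y ∈ L' := hL (Or.inr (Or.inr (Or.inl rfl)))
        by_cases h1 : j < 2 ^ h
        · have hm1 : m' j ∈ L' := hL (Or.inl ⟨j, hj.1, h1, rfl⟩)
          refine (hb'.and2 _ _ hy hm1).mono ?_
          rintro f (hf | hf)
          · rw [Set.mem_singleton_iff] at hf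
            subst hf
            left
            simp only [m, if_pos h1]
          · exact Or.inr hf
        · by_cases h2 : j = 2 ^ h
          · refine (hb'.mono ?_).pad1
            rintro f (hf | hf)
            · rw [Set.mem_singleton_iff] at hf
              subst hf
              simp only [m, if_neg h1, if_pos h2]
              exact hy
            · exact hf
          · have hm1 : m' (j - 2 ^ h) ∈ L' := hL (Or.inl ⟨j - 2 ^ h, by omega, by omega, rfl⟩)
            refine (hb'.or2 _ _ hy hm1).mono ?_
            rintro f (hf | hf)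
            · rw [Set.mem_singleton_iff] at hf
              subst hf
              left
              simp only [m, if_neg h1, if_neg h2]
            · exact Or.inr hf) hb3
    refine ⟨m, ?_, ?_⟩
    · refine (hb4.mono ?_).le ?_ ?_
      · rintro f (⟨j, hj1, hj2, rfl⟩ | hf)
        · left
          simp only [Set.mem_iUnion, mem_Ico]
          exact ⟨j, ⟨hj1, hj2⟩, rfl⟩
        · exact Or.inr (Or.inr (Or.inr (Or.inr hf)))
      · rw [Nat.card_Ico, Nat.card_Ico]
        omega
      · omega
    · intro x hx j hj1 hj2
      have hmid : (1 : ℕ) ≤ 2 ^ h := hpos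
      have hu : ∀ i j, 1 ≤ i → i ≤ j → j < 2 ^ h → u j x → u i x := by
        intro i j hi hij hj hu
        rcases hu with ⟨h1, h2⟩ | h1
        · exact Or.inl ⟨hx i j hi hij (by omega) h1, h2⟩
        · exact Or.inr (hx (2 ^ h + i) (2 ^ h + j) (by omega) (by omega) (by omega) h1)
      have hm'' := hm' x hu
      by_cases h1 : j < 2 ^ h
      · have e1 : m j x ↔ (y x ∧ m' j x) := by simp only [m, if_pos h1]
        rw [e1, hm'' j hj1 h1]
        simp only [u, y]
        constructor
        · rintro ⟨h2, h3⟩ h4
          exact h3 (Or.inl ⟨h4, h2⟩)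
        · intro h2
          refine ⟨fun h3 => h2 (hx j (2 ^ h) hj1 (by omega) (by omega) h3), ?_⟩
          rintro (⟨h3, _⟩ | h3)
          · exact h2 h3
          · exact h2 (hx j (2 ^ h + j) hj1 (by omega) (by omega) h3)
      · by_cases h2 : j = 2 ^ h
        · subst h2
          simp only [m, lt_irrefl, if_false, if_true, y]
        · have e1 : m j x ↔ (y x ∨ m' (j - 2 ^ h) x) := by simp only [m, if_neg h1, if_neg h2]
          rw [e1, hm'' (j - 2 ^ h) (by omega) (by omega)]
          have e2 : 2 ^ h + (j - 2 ^ h) = j := by omega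
          simp only [u, y, e2]
          constructor
          · rintro (h3 | h3) h4
            · exact h3 (hx (2 ^ h) j hpos (by omega) (by omega) h4)
            · exact h3 (Or.inr h4)
          · intro h3
            by_cases h4 : z (2 ^ h) x
            · right
              rintro (⟨_, h5⟩ | h5)
              · exact h5 h4
              · exact h3 h5
            · exact Or.inl h4

end Pool.Agent.OneSided
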