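import Pool.Agent.Lib.MP_b573ec_lc_OS.Count
import Pool.Agent.Lib.MP_b573ec_lc.Final

/-!
Lower bound for randomized circuits with one-sided error deciding the clique problem.
-/

set_option autoImplicit false

namespace Pool.Agent.OneSided

open Finset Pool.Agent.CliqueCircuits Pool.Agent.RandomCircuits

section

variable {n t s L k m K e : ℕ}

open Classical in
theorem rand_finite_os {ρ g : ℕ} {pr : ℝ} (D : RoleData n L k m e)
    (C : Circuit ({p : Fin n × Fin n // p.1 < p.2} ⊕ Fin t) s)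
    (H : Finset {p : Fin n × Fin n // p.1 < p.2})
    (hvarH : ∀ j ξ, HR H (D.zc j (D.π ξ)) (D.wl j ξ))
    (hρ : ∀ r, numNotGiven C H r ≤ ρ)
    (hgp : 1 ≤ (g : ℝ) * pr)
    (hyes : ∀ G : SimpleGraph (Fin n), HasBigClique G →
      pr * 2 ^ t ≤ ((univ.filter (fun r : Fin t → Bool => Accepts C G r)).card : ℝ))
    (hno : ∀ G : SimpleGraph (Fin n), ¬ HasBigClique G →
      4 * ((univ.filter (fun r : Fin t → Bool => Accepts C G r)).card : ℝ) ≤ pr * 2 ^ t)
    (hL : L = 8 * g * 2 ^ ρ) (hg : 1 ≤ g) (hKk : K < k) (hk2 : 2 ≤ k) (hn : 1 ≤ n)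
    (hmpos : 0 < m)
    (q l : ℕ) (hq : 1 ≤ q) (hl : 2 ≤ l) (hK : 2 * l ^ 2 ≤ K)
    (h1 : 4 * (s * (l * l) ^ (q + 1)) ≤ K ^ (q + 1))
    (h2 : 8 * g * (s * q ^ (l + 1)) ≤ m ^ (l + 1))
    (hslots : D.slots = Nat.sqrt n + 1) : False := by
  have hKpos : 0 < K := by
    have : 0 < l ^ 2 := pow_pos (by omega) _
    omega
  have hedH : ∀ (ed : {p : Fin n × Fin n // p.1 < p.2}) ξ, D.IsVar ξ ed.1.1 ed.1.2 →
      ed ∈ H := by
    intro ed ξ hv
    refine (hvarH ξ.1 ξ.2).mem ed ?_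
    rcases hv with ⟨a, b⟩ | ⟨a, b⟩
    · left; exact ⟨a.symm, b.symm⟩
    · right; exact ⟨a.symm, b.symm⟩
  let F0 : OrFamily {p : Fin n × Fin n // p.1 < p.2} L k m K := D.family
  let F : (Fin t → Bool) → OrFamily ({p : Fin n × Fin n // p.1 < p.2} ⊕ Fin t) L k m K :=
    fun r => extF F0 (fun i => r i = true)
  -- graphs
  let Z := Fin L × (Fin L → Fin k × Fin m → Fin K) × (Fin k → Fin m)
  let GP : Z → SimpleGraph (Fin n) :=
    fun z => D.graph (xOfO (K := K) (Function.update (stN z.2.1 z.1.val) z.1 (OState.tr z.2.2)))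
  let GN : Z → SimpleGraph (Fin n) :=
    fun z => D.graph (xOfO (stN z.2.1 (z.1.val + 1)))
  have hyesG : ∀ z, HasBigClique (GP z) := by
    intro z
    obtain ⟨S, hS, hcard⟩ := D.clique_of_tr
      (Function.update (stN z.2.1 z.1.val) z.1 (OState.tr (K := K) z.2.2)) z.1 z.2.2 (by simp)
    refine ⟨S, hS, ?_⟩
    rw [hcard, hslots]
    push_cast
    exact Real.real_sqrt_lt_nat_sqrt_succ
  have hnoG : ∀ z, ¬ HasBigClique (GN z) := by
    rintro z ⟨S, hS, hcardS⟩
    have hsqrt : (Nat.sqrt n : ℝ) ≤ Real.sqrt n := Real.nat_sqrt_le_real_sqrt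
    have hcard' : Nat.sqrt n < S.card := by
      have : (Nat.sqrt n : ℝ) < (S.card : ℝ) := hsqrt.trans_lt hcardS
      exact_mod_cast this
    have hsq1 : 1 ≤ Nat.sqrt n := Nat.sqrt_pos.2 hn
    refine D.no_clique (stN z.2.1 (z.1.val + 1)) hKk hk2 ?_ S hS (by rw [hslots]; exact hcard')
      (by omega)
    intro i
    simp only [stN]
    by_cases hi : i.val < z.1.val + 1
    · right
      exact ⟨z.2.1 i, by rw [if_pos hi]⟩
    · left
      rw [if_neg hi]
  let T : ℕ := Fintype.card (Fin L → Fin k × Fin m → Fin K) * m ^ k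
  have hTpos : 0 < T := by
    refine Nat.mul_pos ?_ (pow_pos hmpos _)
    rw [Fintype.card_pos_iff]
    exact ⟨fun _ _ => ⟨0, hKpos⟩⟩
  have hup : ∀ r : Fin t → Bool, 8 * g * (univ.filter (fun z : Z => Accepts C (GP z) r)).card <
      (L + 16 * g * 2 ^ ρ) * T + 16 * g * (univ.filter (fun z : Z => Accepts C (GN z) r)).card := by
    intro r
    let R : Finset (Fin s) := univ.filter (fun i => C.kind i = GateKind.not ∧
      DependsOnEdges C H r i)
    have hR : R.card ≤ ρ := by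
      refine le_trans (le_of_eq ?_) (hρ r)
      simp only [R, numNotGiven]
      rw [Nat.card_eq_fintype_card, Fintype.card_subtype]
    have hconst : ∀ i, C.kind i = GateKind.not → i ∉ R → ∀ st st' val val',
        C.IsEvalM ((F r).asg st) val → C.IsEvalM ((F r).asg st') val' → (val i ↔ val' i) := by
      intro i hi hiR st st' val val' hv hv'
      by_contra hne
      apply hiR
      simp only [R, mem_filter, mem_univ, true_and]
      refine ⟨hi, F0.asg st, F0.asg st', val, val', ?_, (C.isEval_iff _ _).2 hv,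
        (C.isEval_iff _ _).2 hv', hne⟩
      intro ed hed
      constructor
      · exact D.adj_congr (fun ξ hξ => absurd (hedH ed ξ hξ) hed)
      · exact D.adj_congr (fun ξ hξ => absurd (hedH ed ξ hξ) hed)
    have h := chain_count_os C (F r) ρ R hR hconst q l g hq hl hg hmpos hK h1 h2
    have hfilP : (univ.filter (fun z : Z => Accepts C (GP z) r)) =
        (univ.filter (fun z : Z => RandomCircuits.Acc C
          ((F r).asg (Function.update (stN z.2.1 z.1.val) z.1 (OState.tr z.2.2))))) := by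
      refine filter_congr fun z _ => ?_
      rw [accepts_iff]
      exact Iff.rfl
    have hfilN : (univ.filter (fun z : Z => Accepts C (GN z) r)) =
        (univ.filter (fun z : Z => RandomCircuits.Acc C
          ((F r).asg (stN z.2.1 (z.1.val + 1))))) := by
      refine filter_congr fun z _ => ?_
      rw [accepts_iff]
      exact Iff.rfl
    rw [hfilP, hfilN]
    exact h
  -- double counting
  have hdc : ∀ Gf : Z → SimpleGraph (Fin n), ∑ r : Fin t → Bool,
      (univ.filter (fun z : Z => Accepts C (Gf z) r)).card =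
      ∑ z, (univ.filter (fun r : Fin t → Bool => Accepts C (Gf z) r)).card := by
    intro Gf
    simp only [card_filter]
    exact sum_comm
  have hcardz : Fintype.card Z = L * T := by
    rw [Fintype.card_prod, Fintype.card_prod, Fintype.card_fin,
      Fintype.card_fun (α := Fin k), Fintype.card_fin, Fintype.card_fin]
  have hsum : 8 * g * ∑ z, (univ.filter (fun r : Fin t → Bool => Accepts C (GP z) r)).card <
      2 ^ t * ((L + 16 * g * 2 ^ ρ) * T) +
        16 * g * ∑ z, (univ.filter (fun r : Fin t → Bool => Accepts C (GN z) r)).card := by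
    rw [← hdc GP, ← hdc GN, mul_sum, mul_sum]
    calc ∑ r : Fin t → Bool, 8 * g * (univ.filter (fun z : Z => Accepts C (GP z) r)).card
        < ∑ r : Fin t → Bool, ((L + 16 * g * 2 ^ ρ) * T +
            16 * g * (univ.filter (fun z : Z => Accepts C (GN z) r)).card) :=
          sum_lt_sum_of_nonempty univ_nonempty fun r _ => hup r
      _ = _ := by
          rw [sum_add_distrib, sum_const, card_univ, smul_eq_mul, Fintype.card_fun,
            Fintype.card_fin, Fintype.card_bool]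
  -- real numbers
  have hlow : (L * T : ℝ) * (pr * 2 ^ t) ≤
      ∑ z, ((univ.filter (fun r : Fin t → Bool => Accepts C (GP z) r)).card : ℝ) := by
    calc (L * T : ℝ) * (pr * 2 ^ t) = ∑ _z : Z, pr * 2 ^ t := by
          rw [sum_const, card_univ, hcardz, nsmul_eq_mul]
          push_cast
          ring
      _ ≤ _ := sum_le_sum fun z _ => hyes _ (hyesG z)
  have hhigh : 4 * ∑ z, ((univ.filter (fun r : Fin t → Bool => Accepts C (GN z) r)).card : ℝ) ≤
      (L * T : ℝ) * (pr * 2 ^ t) := by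
    rw [mul_sum]
    calc ∑ z, 4 * ((univ.filter (fun r : Fin t → Bool => Accepts C (GN z) r)).card : ℝ)
        ≤ ∑ _z : Z, pr * 2 ^ t := sum_le_sum fun z _ => hno _ (hnoG z)
      _ = (L * T : ℝ) * (pr * 2 ^ t) := by
          rw [sum_const, card_univ, hcardz, nsmul_eq_mul]
          push_cast
          ring
  have hsumR : 8 * (g : ℝ) * ∑ z, ((univ.filter
        (fun r : Fin t → Bool => Accepts C (GP z) r)).card : ℝ) <
      2 ^ t * ((L + 16 * g * 2 ^ ρ) * T) +
        16 * g * ∑ z, ((univ.filter (fun r : Fin t → Bool => Accepts C (GN z) r)).card : ℝ) := by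
    exact_mod_cast hsum
  have hLR : (L : ℝ) = 8 * g * 2 ^ ρ := by
    rw [hL]
    push_cast
    ring
  have hgR : (1 : ℝ) ≤ g := by exact_mod_cast hg
  have hLpos : (0 : ℝ) < L := by
    rw [hLR]
    positivity
  have hTR : (0 : ℝ) < T := by exact_mod_cast hTpos
  have h2t : (0 : ℝ) < 2 ^ t := by positivity
  set W : ℝ := (L : ℝ) * T * 2 ^ t with hW
  have hWpos : 0 < W := by positivity
  have e1 : (2 : ℝ) ^ t * ((L + 16 * g * 2 ^ ρ) * T) = 3 * W := by
    have : 16 * (g : ℝ) * 2 ^ ρ = 2 * L := by rw [hLR]; ring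
    rw [this, hW]
    ring
  have e2 : (L * T : ℝ) * (pr * 2 ^ t) = pr * W := by
    rw [hW]
    ring
  rw [e2] at hlow hhigh
  rw [e1] at hsumR
  have f1 : 8 * (g : ℝ) * (pr * W) ≤ 8 * (g : ℝ) * ∑ z, ((univ.filter
        (fun r : Fin t → Bool => Accepts C (GP z) r)).card : ℝ) :=
    mul_le_mul_of_nonneg_left hlow (by positivity)
  have f2 : 4 * (g : ℝ) * (4 * ∑ z, ((univ.filter
        (fun r : Fin t → Bool => Accepts C (GN z) r)).card : ℝ)) ≤ 4 * (g : ℝ) * (pr * W) :=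
    mul_le_mul_of_nonneg_left hhigh (by positivity)
  have f3 : W ≤ (g : ℝ) * pr * W := by
    have := mul_le_mul_of_nonneg_right hgp hWpos.le
    linarith
  have f4 : 4 * ((g : ℝ) * pr * W) < 3 * W := by
    have e3 : 4 * (g : ℝ) * (4 * ∑ z, ((univ.filter
        (fun r : Fin t → Bool => Accepts C (GN z) r)).card : ℝ)) =
        16 * g * ∑ z, ((univ.filter (fun r : Fin t → Bool => Accepts C (GN z) r)).card : ℝ) := by
      ring
    have e4 : 8 * (g : ℝ) * (pr * W) = 8 * ((g : ℝ) * pr * W) := by ring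
    have e5 : 4 * (g : ℝ) * (pr * W) = 4 * ((g : ℝ) * pr * W) := by ring
    rw [e3, e5] at f2
    rw [e4] at f1
    linarith
  linarith

open Classical in
/-- natural-number form -/
theorem rand_nat_os {n t s ρ g a : ℕ} {pr : ℝ} (hn1 : 1 ≤ n)
    (C : Circuit ({p : Fin n × Fin n // p.1 < p.2} ⊕ Fin t) s)
    (H : Finset {p : Fin n × Fin n // p.1 < p.2})
    (hρ : ∀ r, numNotGiven C H r ≤ ρ)
    (hgp : 1 ≤ (g : ℝ) * pr)
    (hyes : ∀ G : SimpleGraph (Fin n), HasBigClique G →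
      pr * 2 ^ t ≤ ((univ.filter (fun r : Fin t → Bool => Accepts C G r)).card : ℝ))
    (hno : ∀ G : SimpleGraph (Fin n), ¬ HasBigClique G →
      4 * ((univ.filter (fun r : Fin t → Bool => Accepts C G r)).card : ℝ) ≤ pr * 2 ^ t)
    (hg : 1 ≤ g) (ha : 2 ≤ a) (hh : 4 * (2 * a) ^ 16 * (8 * g * 2 ^ ρ) ≤ H.card) :
    2 ^ a ≤ 4 * g * n * s := by
  by_contra hlt
  push Not at hlt
  have hρpos : 1 ≤ 2 ^ ρ := Nat.one_le_two_pow
  have hspos : 1 ≤ s := by
    have := C.out.isLt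
    omega
  have hn2a : n < 2 ^ a := by
    refine lt_of_le_of_lt ?_ hlt
    calc n = 1 * 1 * n * 1 := by ring
      _ ≤ 4 * g * n * s := by gcongr; norm_num
  have hs : 4 * g * s < 2 ^ a := by
    refine lt_of_le_of_lt ?_ hlt
    calc 4 * g * s = 4 * g * 1 * s := by ring
      _ ≤ 4 * g * n * s := by gcongr
  have hL1 : 1 ≤ 8 * g * 2 ^ ρ := Nat.mul_pos (by omega) hρpos
  obtain ⟨c, e, D, hc1, hc3, hD1, hslots⟩ :=
    gadget_general (g := 1) H ha le_rfl hn2a hL1 (by simpa using hh)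
  have ha2 : 4 ≤ a ^ 2 := by nlinarith
  have hs' : 8 * g * s ≤ 2 ^ (a + 1) := by
    rw [pow_succ]
    have : 8 * g * s = 4 * g * s * 2 := by ring
    omega
  have hs4 : 4 * s ≤ 2 ^ (a + 1) := by
    refine le_trans ?_ hs'
    calc 4 * s ≤ 8 * 1 * s := by omega
      _ ≤ 8 * g * s := by gcongr
  have h1 : 4 * (s * (a * a) ^ (a + 1)) ≤ (2 * a ^ 2) ^ (a + 1) := by
    calc 4 * (s * (a * a) ^ (a + 1)) = (4 * s) * (a * a) ^ (a + 1) := by ring
      _ ≤ 2 ^ (a + 1) * (a * a) ^ (a + 1) := Nat.mul_le_mul_right _ hs4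
      _ = (2 * (a * a)) ^ (a + 1) := (mul_pow _ _ _).symm
      _ = (2 * a ^ 2) ^ (a + 1) := by rw [sq]
  have h2 : 8 * g * (s * a ^ (a + 1)) ≤ (a * c) ^ (a + 1) := by
    calc 8 * g * (s * a ^ (a + 1)) = (8 * g * s) * a ^ (a + 1) := by ring
      _ ≤ 2 ^ (a + 1) * a ^ (a + 1) := Nat.mul_le_mul_right _ hs'
      _ ≤ c ^ (a + 1) * a ^ (a + 1) := by
          refine Nat.mul_le_mul_right _ (Nat.pow_le_pow_left hc3 _)
      _ = (a * c) ^ (a + 1) := by rw [mul_pow, Nat.mul_comm]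
  exact rand_finite_os (K := 2 * a ^ 2) D C H hD1 hρ hgp hyes hno rfl hg (by omega) (by omega) hn1
    (Nat.mul_pos (by omega) (by omega)) a a (by omega) ha le_rfl h1 h2 hslots

/-- real form -/
theorem rand_real_os {n t s ρ : ℕ} {pr : ℝ} (hn : 1 ≤ n) (hp : 0 < pr) (hp1 : pr ≤ 1)
    (C : Circuit ({p : Fin n × Fin n // p.1 < p.2} ⊕ Fin t) s)
    (H : Finset {p : Fin n × Fin n // p.1 < p.2})
    (hρ : ∀ r, numNotGiven C H r ≤ ρ)
    (hyes : ∀ G : SimpleGraph (Fin n), HasBigClique G → pr ≤ acceptProb C G)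
    (hno : ∀ G : SimpleGraph (Fin n), ¬ HasBigClique G → acceptProb C G ≤ pr / 4) :
    (2 : ℝ) ^ ((pr * H.card / 2 ^ ρ) ^ (1 / 16 : ℝ) / 4) ≤ 8 * n * s / pr := by
  classical
  have hs : 1 ≤ s := by
    have := C.out.isLt
    omega
  by_contra hlt
  push Not at hlt
  obtain ⟨g, hg⟩ : ∃ g : ℕ, g = ⌈1 / pr⌉₊ := ⟨_, rfl⟩
  have h1γ : 1 ≤ 1 / pr := by
    rw [le_div_iff₀ hp]
    linarith
  have hgγ : 1 / pr ≤ g := by
    rw [hg]
    exact Nat.le_ceil _
  have hgp : 1 ≤ (g : ℝ) * pr := by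
    rwa [div_le_iff₀ hp] at hgγ
  have hg1 : 1 ≤ g := by
    have : (1 : ℝ) ≤ g := h1γ.trans hgγ
    exact_mod_cast this
  have hg2 : (g : ℝ) ≤ 2 / pr := by
    have h2 : (g : ℝ) < 1 / pr + 1 := by
      rw [hg]
      exact Nat.ceil_lt_add_one (by positivity)
    have h3 : 2 / pr = 1 / pr + 1 / pr := by ring
    linarith
  have hnR : (1 : ℝ) ≤ n := by exact_mod_cast hn
  have hsR : (1 : ℝ) ≤ s := by exact_mod_cast hs
  set y : ℝ := pr * H.card / 2 ^ ρ with hy
  have hy0 : 0 ≤ y := by positivity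
  set x : ℝ := y ^ (1 / 16 : ℝ) / 4 with hx
  have hx0 : 0 ≤ x := by positivity
  have h8 : (8 : ℝ) ≤ 8 * n * s / pr := by
    rw [le_div_iff₀ hp]
    have h5 : (1 : ℝ) ≤ n * s := by
      calc (1 : ℝ) = 1 * 1 := by ring
        _ ≤ n * s := mul_le_mul hnR hsR (by norm_num) (by linarith)
    nlinarith
  have hx3 : 3 < x := by
    by_contra hcon
    push Not at hcon
    have h2 : (2 : ℝ) ^ x ≤ (2 : ℝ) ^ (3 : ℝ) :=
      Real.rpow_le_rpow_of_exponent_le (by norm_num) hcon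
    have h3 : (2 : ℝ) ^ (3 : ℝ) = 8 := by norm_num
    linarith
  set a : ℕ := ⌈x⌉₊ with ha
  have hax : x ≤ a := Nat.le_ceil x
  have hax' : (a : ℝ) < x + 1 := Nat.ceil_lt_add_one hx0
  have ha2 : 2 ≤ a := by
    have : (3 : ℝ) < a := hx3.trans_le hax
    have : 3 < a := by exact_mod_cast this
    omega
  have h4x : (4 * x) ^ 16 = y := by
    have h5 : 4 * x = y ^ (1 / 16 : ℝ) := by rw [hx]; ring
    rw [h5, ← Real.rpow_natCast, ← Real.rpow_mul hy0]
    norm_num
  have h2 : 64 * ((2 : ℝ) * a) ^ 16 ≤ y := by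
    have h2 : (2 : ℝ) * a ≤ (2 / 3) * (4 * x) := by linarith
    have h3 : ((2 : ℝ) * a) ^ 16 ≤ ((2 / 3) * (4 * x)) ^ 16 :=
      pow_le_pow_left₀ (by positivity) h2 16
    rw [mul_pow (2 / 3 : ℝ), h4x] at h3
    have h5 : (64 : ℝ) * ((2 / 3) ^ 16 * y) ≤ y := by
      have h6 : (64 : ℝ) * (2 / 3) ^ 16 ≤ 1 := by norm_num
      calc (64 : ℝ) * ((2 / 3) ^ 16 * y) = (64 * (2 / 3) ^ 16) * y := by ring
        _ ≤ 1 * y := mul_le_mul_of_nonneg_right h6 hy0
        _ = y := one_mul _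
    calc 64 * ((2 : ℝ) * a) ^ 16 ≤ 64 * ((2 / 3) ^ 16 * y) :=
          mul_le_mul_of_nonneg_left h3 (by norm_num)
      _ ≤ y := h5
  have h2ρ : (0 : ℝ) < 2 ^ ρ := by positivity
  have hgR : (0 : ℝ) ≤ g := Nat.cast_nonneg _
  have hg3 : (g : ℝ) * pr ≤ 2 := by
    have := mul_le_mul_of_nonneg_right hg2 hp.le
    rwa [div_mul_cancel₀ _ hp.ne'] at this
  have h3 : 4 * (2 * a) ^ 16 * (8 * g * 2 ^ ρ) ≤ H.card := by
    have h4 : (4 : ℝ) * (2 * a) ^ 16 * (8 * g * 2 ^ ρ) ≤ H.card := by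
      have h5 : 64 * ((2 : ℝ) * a) ^ 16 * 2 ^ ρ ≤ pr * H.card := by
        rw [hy, le_div_iff₀ h2ρ] at h2
        exact h2
      have h6 : (g : ℝ) * (64 * ((2 : ℝ) * a) ^ 16 * 2 ^ ρ) ≤
          (g : ℝ) * (pr * H.card) := mul_le_mul_of_nonneg_left h5 hgR
      have h7 : (g : ℝ) * (pr * H.card) ≤ 2 * H.card := by
        calc (g : ℝ) * (pr * (H.card : ℝ)) = (g * pr) * (H.card : ℝ) := by ring
          _ ≤ 2 * (H.card : ℝ) := mul_le_mul_of_nonneg_right hg3 (Nat.cast_nonneg _)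
      have h9 : 2 * ((4 : ℝ) * (2 * a) ^ 16 * (8 * g * 2 ^ ρ)) =
          (g : ℝ) * (64 * ((2 : ℝ) * a) ^ 16 * 2 ^ ρ) := by ring
      linarith
    exact_mod_cast h4
  have he : ∀ G : SimpleGraph (Fin n), acceptProb C G * 2 ^ t =
      ((univ.filter (fun r : Fin t → Bool => Accepts C G r)).card : ℝ) := by
    intro G
    unfold acceptProb
    rw [Nat.card_eq_fintype_card, Fintype.card_subtype]
    field_simp
  have h2t : (0 : ℝ) < 2 ^ t := by positivity
  have h4 := rand_nat_os hn C H hρ hgp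
    (fun G hG => by
      rw [← he]
      exact mul_le_mul_of_nonneg_right (hyes G hG) h2t.le)
    (fun G hG => by
      rw [← he]
      have := mul_le_mul_of_nonneg_right (hno G hG) h2t.le
      linarith) hg1 ha2 h3
  have h5 : (2 : ℝ) ^ x ≤ (2 : ℝ) ^ (a : ℝ) :=
    Real.rpow_le_rpow_of_exponent_le (by norm_num) hax
  rw [Real.rpow_natCast] at h5
  have h6 : ((2 ^ a : ℕ) : ℝ) ≤ ((4 * g * n * s : ℕ) : ℝ) := by exact_mod_cast h4
  push_cast at h6
  have h7 : (4 : ℝ) * g * n * s ≤ 8 * n * s / pr := by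
    have h8 : (4 : ℝ) * g * n * s = g * (4 * n * s) := by ring
    have h9 : 8 * n * s / pr = 2 / pr * (4 * n * s) := by ring
    rw [h8, h9]
    exact mul_le_mul_of_nonneg_right hg2 (by positivity)
  linarith

end

end Pool.Agent.OneSided
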